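import Mathlib

set_option autoImplicit false

/-! Minimality of topological groups: compact kernels and closed subgroups of abelian groups. -/

namespace Pool.Agent.X270.MinAb

open Topology Filter

universe u v

/-- no strictly coarser Hausdorff group topology -/
def IsMin (G : Type u) [Group G] [τ : TopologicalSpace G] : Prop :=
  ∀ σ : TopologicalSpace G, τ ≤ σ → @IsTopologicalGroup G σ _ → @T2Space G σ → σ = τ

theorem IsMin.open {G : Type u} {G' : Type v} [Group G] [Group G'] [τ : TopologicalSpace G]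
    [τ' : TopologicalSpace G'] [IsTopologicalGroup G'] [T2Space G'] (h : IsMin G) (i : G ≃* G')
    (hi : Continuous i) : IsOpenMap i := by
  have hind : TopologicalSpace.induced i τ' = τ := by
    apply h
    · exact continuous_iff_le_induced.1 hi
    · exact topologicalGroup_induced i
    · have : @Topology.IsInducing G G' (TopologicalSpace.induced i τ') τ' i := by
        let _ := TopologicalSpace.induced i τ'
        exact ⟨rfl⟩
      have h2 : @Continuous G G' (TopologicalSpace.induced i τ') τ' i := continuous_induced_dom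
      let _ := TopologicalSpace.induced i τ'
      exact T2Space.of_injective_continuous i.injective h2
  have h1 : Topology.IsInducing i := ⟨hind.symm⟩
  exact (h1.isOpenMap (by rw [i.surjective.range_eq]; exact isOpen_univ))

theorem isMin_of {G : Type u} [Group G] [τ : TopologicalSpace G]
    (h : ∀ (G' : Type u) [Group G'] [TopologicalSpace G'] [IsTopologicalGroup G'] [T2Space G']
      (i : G ≃* G'), Continuous i → IsOpenMap i) : IsMin G := by
  intro σ hle hσg hσt
  have h1 : @IsOpenMap G G τ σ (MulEquiv.refl G) :=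
    @h G _ σ hσg hσt (MulEquiv.refl G) (continuous_id_iff_le.2 hle)
  apply le_antisymm _ hle
  intro U hU
  have := h1 U hU
  simpa using this

theorem preim_eq {G : Type u} {G' : Type v} [Group G] [Group G'] (e : G ≃* G') (s : Set G) :
    e.symm ⁻¹' s = e '' s := by
  ext x
  exact ⟨fun h => ⟨e.symm x, h, e.apply_symm_apply x⟩, by rintro ⟨y, hy, rfl⟩; simpa using hy⟩

theorem symm_cont {G : Type u} {G' : Type v} [Group G] [Group G'] [TopologicalSpace G]
    [TopologicalSpace G'] (e : G ≃* G') (ho : IsOpenMap e) : Continuous e.symm := by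
  rw [continuous_def]
  intro s hs
  rw [preim_eq]
  exact ho s hs

theorem open_of_symm {G : Type u} {G' : Type v} [Group G] [Group G'] [TopologicalSpace G]
    [TopologicalSpace G'] (e : G ≃* G') (h : Continuous e.symm) : IsOpenMap e := by
  intro s hs
  rw [← preim_eq]
  exact hs.preimage h

/-- an open surjective homomorphism with compact kernel onto a minimal group -/
theorem min_of_open_hom {G : Type u} {Q : Type v} [Group G] [Group Q] [TopologicalSpace G]
    [TopologicalSpace Q] [IsTopologicalGroup G]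
    (g : G →* Q) (hc : Continuous g) (ho : IsOpenMap g) (hs : Function.Surjective g)
    (hk : IsCompact (g.ker : Set G)) (hQ : IsMin Q) : IsMin G := by
  apply isMin_of
  intro G' _ _ _ _ i hi
  set N' : Subgroup G' := g.ker.map i.toMonoidHom with hN'
  have hN'n : N'.Normal := Subgroup.Normal.map inferInstance _ i.surjective
  have hN'k : IsCompact (N' : Set G') := by
    rw [hN', Subgroup.coe_map]
    exact hk.image hi
  have hN'c : IsClosed (N' : Set G') := hN'k.isClosed
  have hmem : ∀ x : G, i x ∈ N' ↔ x ∈ g.ker := by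
    intro x
    constructor
    · rintro ⟨y, hy, he⟩
      rwa [← i.injective he]
    · intro hx
      exact ⟨x, hx, rfl⟩
  -- the isomorphism
  let φ : G →* G' ⧸ N' := (QuotientGroup.mk' N').comp i.toMonoidHom
  have hφ : ∀ x, φ x = QuotientGroup.mk (i x) := fun x => rfl
  have hφs : Function.Surjective φ := by
    intro q
    obtain ⟨y, rfl⟩ := QuotientGroup.mk_surjective q
    obtain ⟨x, rfl⟩ := i.surjective y
    exact ⟨x, rfl⟩
  have hker : φ.ker = g.ker := by
    ext x
    rw [MonoidHom.mem_ker, hφ, QuotientGroup.eq_one_iff]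
    exact hmem x
  let e : Q ≃* G' ⧸ N' :=
    (QuotientGroup.quotientKerEquivOfSurjective g hs).symm.trans
      ((QuotientGroup.quotientMulEquivOfEq hker.symm).trans
        (QuotientGroup.quotientKerEquivOfSurjective φ hφs))
  have he : ∀ x : G, e (g x) = QuotientGroup.mk (i x) := by
    intro x
    have h1 : (QuotientGroup.quotientKerEquivOfSurjective g hs).symm (g x) = QuotientGroup.mk x := by
      rw [MulEquiv.symm_apply_eq]
      rfl
    show (QuotientGroup.quotientKerEquivOfSurjective φ hφs)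
      ((QuotientGroup.quotientMulEquivOfEq hker.symm)
        ((QuotientGroup.quotientKerEquivOfSurjective g hs).symm (g x))) = _
    rw [h1]
    rfl
  have hqm : Topology.IsQuotientMap g := ho.isQuotientMap hc hs
  have hec : Continuous e := by
    rw [hqm.continuous_iff]
    have : e ∘ g = fun x => (QuotientGroup.mk (i x) : G' ⧸ N') := by
      funext x; exact he x
    rw [this]
    exact QuotientGroup.continuous_mk.comp hi
  have : T2Space (G' ⧸ N') := inferInstance
  have heo := hQ.open e hec
  have hesc : Continuous e.symm := symm_cont e heo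
  -- continuity of the projection of the coarser group
  have hg' : Continuous (fun y : G' => g (i.symm y)) := by
    have : (fun y : G' => g (i.symm y)) = e.symm ∘ (QuotientGroup.mk : G' → G' ⧸ N') := by
      funext y
      show g (i.symm y) = e.symm (QuotientGroup.mk y)
      rw [MulEquiv.eq_symm_apply, he, i.apply_symm_apply]
    rw [this]
    exact hesc.comp QuotientGroup.continuous_mk
  -- the topologies agree on the kernel
  have hkerU : ∀ U ∈ 𝓝 (1 : G), ∃ W ∈ 𝓝 (1 : G'), ∀ x : G, i x ∈ W → x ∈ g.ker → x ∈ U := by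
    intro U hU
    obtain ⟨O, hOU, hOo, h1O⟩ := mem_nhds_iff.1 hU
    have h1 : IsCompact ((g.ker : Set G) ∩ Oᶜ) := hk.inter_right hOo.isClosed_compl
    have h2 : IsCompact (i '' ((g.ker : Set G) ∩ Oᶜ)) := h1.image hi
    have h4 : (1 : G') ∈ (i '' ((g.ker : Set G) ∩ Oᶜ))ᶜ := by
      rintro ⟨x, ⟨_, hx⟩, he1⟩
      apply hx
      rw [map_eq_one_iff i i.injective] at he1
      rw [he1]; exact h1O
    refine ⟨(i '' ((g.ker : Set G) ∩ Oᶜ))ᶜ, h2.isClosed.isOpen_compl.mem_nhds h4, fun x hx hxk => ?_⟩
    apply hOU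
    by_contra hxO
    exact hx ⟨x, ⟨hxk, hxO⟩, rfl⟩
  -- continuity of the inverse at one
  have hcont : Continuous i.symm := by
    refine continuous_of_continuousAt_one (i.symm : G' →* G) ?_
    show Tendsto (fun y => i.symm y) (𝓝 1) (𝓝 (i.symm 1))
    rw [map_one]
    intro U hU
    show (fun y => i.symm y) ⁻¹' U ∈ 𝓝 1
    obtain ⟨V, hV, hVU⟩ := exists_nhds_one_split hU
    obtain ⟨W, hW, hWV⟩ := hkerU V hV
    obtain ⟨W1, hW1, hW1W⟩ := exists_nhds_split_inv hW
    have hW1' : W1⁻¹ ∈ 𝓝 (1 : G') := by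
      simpa using inv_mem_nhds_one G' hW1
    have hpi : i ⁻¹' W1⁻¹ ∈ 𝓝 (1 : G) :=
      hi.continuousAt (by rw [map_one]; exact hW1')
    have himg : g '' (V ∩ i ⁻¹' W1⁻¹) ∈ 𝓝 (1 : Q) := by
      have := ho.image_mem_nhds (Filter.inter_mem hV hpi)
      rwa [map_one] at this
    have hpre : (fun y : G' => g (i.symm y)) ⁻¹' (g '' (V ∩ i ⁻¹' W1⁻¹)) ∈ 𝓝 (1 : G') :=
      hg'.continuousAt (by simp only [map_one]; exact himg)
    refine Filter.mem_of_superset (Filter.inter_mem hW1' hpre) ?_
    rintro x ⟨hx1, y, ⟨hyV, hyW⟩, hxy⟩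
    show i.symm x ∈ U
    have hk1 : y⁻¹ * i.symm x ∈ g.ker := by
      rw [MonoidHom.mem_ker, map_mul, map_inv, hxy, inv_mul_cancel]
    have h2 : (i y)⁻¹ / x⁻¹ ∈ W := hW1W (i y)⁻¹ hyW x⁻¹ hx1
    have h2' : i (y⁻¹ * i.symm x) ∈ W := by
      rw [map_mul, map_inv, i.apply_symm_apply]
      rwa [div_eq_mul_inv, inv_inv] at h2
    have h3 := hWV _ h2' hk1
    have h4 := hVU y hyV _ h3
    rwa [mul_inv_cancel_left] at h4
  exact open_of_symm i hcont

/-- closed subgroups of minimal abelian groups are minimal -/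
theorem min_closed {A : Type u} [CommGroup A] [TopologicalSpace A] [IsTopologicalGroup A]
    (hA : IsMin A) (C : Subgroup A) (hC : IsClosed (C : Set A)) : IsMin C := by
  apply isMin_of
  intro C' _ _ _ _ i hi
  -- C' is commutative
  have hcomm : ∀ a b : C', a * b = b * a := by
    intro a b
    obtain ⟨x, rfl⟩ := i.surjective a
    obtain ⟨y, rfl⟩ := i.surjective b
    rw [← map_mul, ← map_mul, mul_comm]
  let m : A × C' →* A := MonoidHom.coprod (MonoidHom.id A) (C.subtype.comp i.symm.toMonoidHom)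
  have hm : ∀ (a : A) (c : C'), m (a, c) = a * (i.symm c : A) := fun a c => rfl
  have hmem : ∀ (a : A) (c : C'), (a, c) ∈ m.ker ↔ a * (i.symm c : A) = 1 := fun a c => by
    rw [MonoidHom.mem_ker, hm]
  have hcl : IsClosed (m.ker : Set (A × C')) := by
    rw [← isOpen_compl_iff, isOpen_iff_mem_nhds]
    rintro ⟨a, c⟩ hac
    have hac' : a * (i.symm c : A) ≠ 1 := fun h => hac ((hmem a c).2 h)
    rw [nhds_prod_eq]
    by_cases haC : a ∈ C
    · have hne : i ⟨a, haC⟩ ≠ c⁻¹ := by
        intro h
        apply hac'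
        have h1 : (⟨a, haC⟩ : C) = (i.symm c)⁻¹ := by
          rw [← map_inv, MulEquiv.eq_symm_apply]; exact h
        have h2 : a = ((i.symm c)⁻¹ : C) := congrArg Subtype.val h1
        rw [h2]; simp
      obtain ⟨O1, O2, ho1, ho2, h1, h2, hd⟩ := t2_separation hne
      have ho1' : IsOpen (i ⁻¹' O1) := ho1.preimage hi
      obtain ⟨O1', hO1', hO1e⟩ := isOpen_induced_iff.1 ho1'
      have ho2' : IsOpen ((fun x : C' => x⁻¹) ⁻¹' O2) := ho2.preimage continuous_inv
      have hmem2 : O1' ×ˢ ((fun x : C' => x⁻¹) ⁻¹' O2) ∈ 𝓝 a ×ˢ 𝓝 c := by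
        refine Filter.prod_mem_prod (hO1'.mem_nhds ?_) (ho2'.mem_nhds h2)
        have : (⟨a, haC⟩ : C) ∈ Subtype.val ⁻¹' O1' := by rw [hO1e]; exact h1
        exact this
      refine Filter.mem_of_superset hmem2 ?_
      rintro ⟨a', c'⟩ ⟨ha', hc'⟩ hk
      have hk' : a' * (i.symm c' : A) = 1 := (hmem a' c').1 hk
      have ha'' : a' = (((i.symm c')⁻¹ : C) : A) := by
        rw [eq_inv_of_mul_eq_one_left hk']; simp
      have h5 : (i.symm c')⁻¹ ∈ Subtype.val ⁻¹' O1' := by
        show (((i.symm c')⁻¹ : C) : A) ∈ O1'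
        rw [← ha'']; exact ha'
      rw [hO1e] at h5
      have h6 : i ((i.symm c')⁻¹) = c'⁻¹ := by rw [map_inv, i.apply_symm_apply]
      have h7 : c'⁻¹ ∈ O1 := by rw [← h6]; exact h5
      exact Set.disjoint_left.1 hd h7 hc'
    · have hmem2 : (C : Set A)ᶜ ×ˢ (Set.univ : Set C') ∈ 𝓝 a ×ˢ 𝓝 c :=
        Filter.prod_mem_prod (hC.isOpen_compl.mem_nhds haC) Filter.univ_mem
      refine Filter.mem_of_superset hmem2 ?_
      rintro ⟨a', c'⟩ ⟨ha', -⟩ hk
      have hk' : a' * (i.symm c' : A) = 1 := (hmem a' c').1 hk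
      apply ha'
      have ha'' : a' = (((i.symm c')⁻¹ : C) : A) := by
        rw [eq_inv_of_mul_eq_one_left hk']; simp
      rw [ha'']
      exact ((i.symm c')⁻¹).2
  have : T2Space ((A × C') ⧸ m.ker) := by
    have := hcl
    infer_instance
  let j0 : A →* (A × C') ⧸ m.ker := (QuotientGroup.mk' m.ker).comp (MonoidHom.inl A C')
  have hj0 : ∀ a, j0 a = QuotientGroup.mk (a, 1) := fun a => rfl
  have hjb : Function.Bijective j0 := by
    constructor
    · intro a b hab
      rw [hj0, hj0, QuotientGroup.eq] at hab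
      have h1 : a⁻¹ * b * ((i.symm (1⁻¹ * 1 : C') : C) : A) = 1 := (hmem _ _).1 hab
      have h2 : a⁻¹ * b = 1 := by simpa using h1
      exact (inv_mul_eq_one.1 h2)
    · intro q
      obtain ⟨⟨a, c⟩, rfl⟩ := QuotientGroup.mk_surjective q
      refine ⟨a * (i.symm c : A), ?_⟩
      rw [hj0, QuotientGroup.eq]
      show ((a * (i.symm c : A))⁻¹ * a, (1 : C')⁻¹ * c) ∈ m.ker
      rw [hmem]
      simp
  let j : A ≃* (A × C') ⧸ m.ker := MulEquiv.ofBijective j0 hjb
  have hj : ∀ a, j a = QuotientGroup.mk (a, 1) := fun a => rfl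
  have hjc : Continuous j := by
    have : (j : A → (A × C') ⧸ m.ker) = (QuotientGroup.mk : A × C' → (A × C') ⧸ m.ker) ∘
        (fun a => (a, (1 : C'))) := rfl
    rw [this]
    exact QuotientGroup.continuous_mk.comp (by fun_prop)
  have hjo := hA.open j hjc
  have hjsc : Continuous j.symm := symm_cont j hjo
  have hcont : Continuous i.symm := by
    refine continuous_induced_rng.2 ?_
    have : (Subtype.val ∘ i.symm : C' → A) =
        j.symm ∘ (QuotientGroup.mk : A × C' → (A × C') ⧸ m.ker) ∘ (fun c => ((1 : A), c)) := by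
      funext c
      show (i.symm c : A) = j.symm (QuotientGroup.mk (1, c))
      rw [MulEquiv.eq_symm_apply, hj, QuotientGroup.eq]
      show (((i.symm c : A))⁻¹ * 1, (1 : C')⁻¹ * c) ∈ m.ker
      rw [hmem]
      simp
    rw [this]
    exact hjsc.comp (QuotientGroup.continuous_mk.comp (by fun_prop))
  exact open_of_symm i hcont

end Pool.Agent.X270.MinAb
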