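import Mathlib
import Pool.Agent.TH54.BU.Iter
import Pool.Agent.TH54.BU.Inf

/-!
# Elementary facts on free Burnside groups of large prime exponent (helper270)

From the statement `Burn p` of the library: commuting elements, retractions, infinite quotients.
-/

set_option autoImplicit false

namespace Pool.Agent.X270.BurnF

open Pool.Agent.TH54.BU

/-- the free group of exponent `p` on `I` -/
abbrev Bf (I : Type) (p : ℕ) : Type := FreeGroup I ⧸ powSub (FreeGroup I) p

variable {I : Type} {p : ℕ}

/-- the generators -/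
def gen (p : ℕ) (i : I) : Bf I p := ((FreeGroup.of i : FreeGroup I) : Bf I p)

theorem pow_Q (x : Bf I p) : x ^ p = 1 := by
  induction x using QuotientGroup.induction_on with
  | H g =>
    rw [← QuotientGroup.mk_pow, QuotientGroup.eq_one_iff]
    exact Subgroup.subset_normalClosure ⟨g, rfl⟩

/-- the homomorphism given by the images of the generators -/
noncomputable def ext {H : Type} [Group H] (f : I → H) (hH : ∀ h : H, h ^ p = 1) : Bf I p →* H :=
  QuotientGroup.lift (powSub (FreeGroup I) p) (FreeGroup.lift f) (by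
    have h1 : powSub (FreeGroup I) p ≤ (FreeGroup.lift f).ker := by
      refine Subgroup.normalClosure_le_normal ?_
      rintro _ ⟨g, rfl⟩
      simp only [SetLike.mem_coe, MonoidHom.mem_ker, map_pow]
      exact hH _
    exact h1)

theorem ext_gen {H : Type} [Group H] (f : I → H) (hH : ∀ h : H, h ^ p = 1) (i : I) :
    ext f hH (gen p i) = f i := by
  unfold ext gen
  erw [QuotientGroup.lift_mk]
  simp

theorem ext_mem {H : Type} [Group H] (f : I → H) (hH : ∀ h : H, h ^ p = 1) (C : Subgroup H)
    (hC : ∀ i, f i ∈ C) (q : Bf I p) : ext f hH q ∈ C := by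
  induction q using QuotientGroup.induction_on with
  | H g =>
    unfold ext
    erw [QuotientGroup.lift_mk]
    have := FreeGroup.range_lift_le (f := f) (s := C) (by rintro _ ⟨i, rfl⟩; exact hC i)
    exact this ⟨g, rfl⟩

theorem closure_gen : Subgroup.closure (Set.range (gen p : I → Bf I p)) = ⊤ := by
  rw [eq_top_iff]
  intro q _
  induction q using QuotientGroup.induction_on with
  | H g =>
    have h1 : g ∈ Subgroup.closure (Set.range (FreeGroup.of : I → FreeGroup I)) := by
      rw [FreeGroup.closure_range_of]; trivial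
    have h2 : (QuotientGroup.mk' (powSub (FreeGroup I) p)) g ∈
        (Subgroup.closure (Set.range (FreeGroup.of : I → FreeGroup I))).map
          (QuotientGroup.mk' (powSub (FreeGroup I) p)) := Subgroup.mem_map_of_mem _ h1
    rw [MonoidHom.map_closure, ← Set.range_comp] at h2
    exact h2

theorem hom_ext {H : Type} [Group H] {f g : Bf I p →* H} (h : ∀ i, f (gen p i) = g (gen p i)) :
    f = g := by
  apply QuotientGroup.monoidHom_ext
  ext i
  exact h i

/-- elements which commute with a nontrivial element are powers of it -/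
theorem comm_zpowers (hp : p.Prime) (hB : Burn p) (x y : Bf I p) (hx : x ≠ 1)
    (h : x * y = y * x) : y ∈ Subgroup.zpowers x := by
  obtain ⟨E, _, z, φ, hs, hk, hc, hz, hpow, -⟩ := hB I
  obtain ⟨X, rfl⟩ := hs x
  obtain ⟨Y, rfl⟩ := hs y
  have hzi : Function.Injective (fun n : ℤ => z ^ n) := injective_zpow_iff_not_isOfFinOrder.2 hz
  have hcz : ∀ (a : E) (n : ℤ), Commute a (z ^ n) := fun a n => (Commute.zpow_right (hc a) n)
  have hX : X ∉ Subgroup.zpowers z := by
    rw [← hk, MonoidHom.mem_ker]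
    exact hx
  obtain ⟨k, hXk, hkp⟩ := hpow X hX
  -- commutator
  have h1 : X * Y * (Y * X)⁻¹ ∈ φ.ker := by
    rw [MonoidHom.mem_ker, map_mul, map_mul, map_inv, map_mul, h, mul_inv_cancel]
  rw [hk] at h1
  obtain ⟨m, hm⟩ := Subgroup.mem_zpowers_iff.1 h1
  have h2 : X * Y = z ^ m * (Y * X) := by rw [hm]; group
  have h3 : ∀ n : ℕ, X ^ n * Y = z ^ (m * n) * (Y * X ^ n) := by
    intro n
    induction n with
    | zero => simp
    | succ n ih =>
      rw [pow_succ', mul_assoc, ih]
      have e1 : X * (z ^ (m * n) * (Y * X ^ n)) = z ^ (m * n) * (X * Y) * X ^ n := by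
        rw [← mul_assoc, (hcz X _).eq]
        group
      rw [e1, h2]
      push_cast
      rw [mul_add, mul_one, zpow_add]
      group
  have h4 : (m * p : ℤ) = 0 := by
    have := h3 p
    rw [hXk] at this
    have e : z ^ k * Y = Y * z ^ k := ((hcz Y k).eq).symm
    rw [e] at this
    have h5 : z ^ (m * p : ℤ) = 1 := by
      have := mul_right_cancel (a := z ^ (m * p : ℤ)) (b := Y * z ^ k) (c := 1) (by
        rw [one_mul]; exact this.symm)
      exact this
    have := hzi (a₁ := m * p) (a₂ := 0) (by simpa using h5)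
    exact this
  have hp0 : (p : ℤ) ≠ 0 := by exact_mod_cast hp.ne_zero
  have hm0 : m = 0 := by
    rcases mul_eq_zero.1 h4 with h | h
    · exact h
    · exact absurd h hp0
  have hXY : Commute X Y := by
    rw [hm0, zpow_zero, one_mul] at h2
    exact h2
  by_cases hY : φ Y = 1
  · rw [hY]; exact one_mem _
  have hY' : Y ∉ Subgroup.zpowers z := by
    rw [← hk, MonoidHom.mem_ker]
    exact hY
  obtain ⟨l, hYl, -⟩ := hpow Y hY'
  have : Fact p.Prime := ⟨hp⟩
  have hk0 : (k : ZMod p) ≠ 0 := by
    rw [Ne, ZMod.intCast_zmod_eq_zero_iff_dvd]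
    exact hkp
  obtain ⟨s, hs'⟩ : ∃ s : ℤ, (p : ℤ) ∣ l - s * k := by
    refine ⟨(((l : ZMod p) * (k : ZMod p)⁻¹).val : ℤ), ?_⟩
    rw [← ZMod.intCast_zmod_eq_zero_iff_dvd]
    push_cast
    rw [ZMod.natCast_zmod_val, mul_assoc, inv_mul_cancel₀ hk0, mul_one, sub_self]
  have h6 : (Y * X ^ (-s)) ^ p = z ^ (l - s * k) := by
    have hcm : Commute Y (X ^ (-s)) := (hXY.symm).zpow_right _
    rw [hcm.mul_pow, hYl]
    have : (X ^ (-s)) ^ p = z ^ (-(s * k)) := by
      rw [← zpow_natCast, ← zpow_mul, mul_comm, zpow_mul, zpow_natCast, hXk, ← zpow_mul]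
      congr 1
      ring
    rw [this, ← zpow_add]
    congr 1
  have h7 : Y * X ^ (-s) ∈ Subgroup.zpowers z := by
    by_contra hcon
    obtain ⟨k', h8, h9⟩ := hpow _ hcon
    rw [h6] at h8
    have := hzi h8
    exact h9 (this ▸ hs')
  rw [← hk, MonoidHom.mem_ker, map_mul, map_zpow] at h7
  refine Subgroup.mem_zpowers_iff.2 ⟨s, ?_⟩
  rw [zpow_neg] at h7
  exact (mul_inv_eq_one.1 h7).symm

theorem gen_ne_comm (hB : Burn p) {i j : I} (hij : i ≠ j) :
    gen p i * gen p j ≠ gen p j * gen p i := by
  obtain ⟨_, _, _, _, -, -, -, -, -, h⟩ := hB I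
  exact h i j hij

theorem gen_ne_one (hB : Burn p) {i j : I} (hij : i ≠ j) : gen p i ≠ 1 := by
  intro h
  apply gen_ne_comm hB hij
  rw [h, one_mul, mul_one]

/-- cyclic subgroups are finite -/
theorem finite_zp (hp : p.Prime) (x : Bf I p) :
    ((Subgroup.zpowers x : Subgroup _) : Set (Bf I p)).Finite :=
  _root_.finite_zpowers.2 (isOfFinOrder_iff_pow_eq_one.2 ⟨p, hp.pos, pow_Q x⟩)

end Pool.Agent.X270.BurnF
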