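import Mathlib

set_option autoImplicit false
set_option linter.unusedSectionVars false

open Topology
open scoped commutatorElement

namespace Pool.Agent.X270.Cappitt

variable {G : Type*} [Group G] [TopologicalSpace G]

/-- `S̃(G)`: the closure of the subgroup generated by all closed subgroups of `G` that are not
normal in `G`. -/
def Stilde (G : Type*) [Group G] [TopologicalSpace G] [IsTopologicalGroup G] : Subgroup G :=
  (Subgroup.closure {g : G | ∃ L : Subgroup G, IsClosed (L : Set G) ∧ ¬ L.Normal ∧ g ∈ L}).topologicalClosure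

/-- Every open normal subgroup has index a power of `p` (for a compact Hausdorff totally
disconnected group this says that the group is pro-`p`). -/
def IsProP (p : ℕ) (G : Type*) [Group G] [TopologicalSpace G] : Prop :=
  ∀ N : Subgroup G, N.Normal → IsOpen (N : Set G) → ∃ k : ℕ, N.index = p ^ k

section basic
variable [IsTopologicalGroup G]

lemma conj_mem {x : G} (hx : x ∉ Stilde G) (g : G) :
    g * x * g⁻¹ ∈ (Subgroup.zpowers x).topologicalClosure := by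
  by_contra h
  apply hx
  refine Subgroup.le_topologicalClosure _ (Subgroup.subset_closure ?_)
  refine ⟨(Subgroup.zpowers x).topologicalClosure, Subgroup.isClosed_topologicalClosure _, ?_,
    Subgroup.le_topologicalClosure _ (Subgroup.mem_zpowers x)⟩
  intro hn
  exact h (hn.conj_mem _ (Subgroup.le_topologicalClosure _ (Subgroup.mem_zpowers x)) g)

lemma approx {x y : G} (h : x ∈ (Subgroup.zpowers y).topologicalClosure) (N : Subgroup G)
    [N.Normal] (hN : IsOpen (N : Set G)) : ∃ m : ℤ, (x : G ⧸ N) = (y : G ⧸ N) ^ m := by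
  have h1 : x ∈ closure ((Subgroup.zpowers y : Subgroup G) : Set G) := h
  rw [mem_closure_iff] at h1
  have hopen : IsOpen ((fun z => x⁻¹ * z) ⁻¹' (N : Set G)) :=
    hN.preimage (continuous_const.mul continuous_id)
  obtain ⟨z, hz1, m, rfl⟩ := h1 _ hopen (by simp)
  refine ⟨m, ?_⟩
  have : (x : G ⧸ N) = ((y ^ m : G) : G ⧸ N) := QuotientGroup.eq.2 hz1
  rw [this]; rfl

variable [CompactSpace G] [T2Space G] [TotallyDisconnectedSpace G]

lemma exists_not_mem {x : G} (hx : x ≠ 1) :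
    ∃ N : Subgroup G, N.Normal ∧ IsOpen (N : Set G) ∧ x ∉ N := by
  obtain ⟨N, hN⟩ := ProfiniteGrp.exist_openNormalSubgroup_sub_open_nhds_of_one
    (U := ({x}ᶜ : Set G)) isOpen_compl_singleton (by simpa using hx.symm)
  exact ⟨N.toSubgroup, N.isNormal', N.isOpen', fun h => hN h rfl⟩

lemma eq_of_quot {x y : G}
    (h : ∀ N : Subgroup G, N.Normal → IsOpen (N : Set G) → (x : G ⧸ N) = (y : G ⧸ N)) : x = y := by
  by_contra hne
  have : x⁻¹ * y ≠ 1 := by
    intro h'; apply hne; exact inv_mul_eq_one.1 h'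
  obtain ⟨N, h1, h2, h3⟩ := exists_not_mem this
  exact h3 (QuotientGroup.eq.1 (h N h1 h2))

lemma commutator_commute_aux {x : G} (hx : x ∉ Stilde G) (g h : G) :
    (g * h) * x * (g * h)⁻¹ = (h * g) * x * (h * g)⁻¹ := by
  apply eq_of_quot
  intro N hN hNo
  obtain ⟨a, ha⟩ := approx (conj_mem hx g) N hNo
  obtain ⟨b, hb⟩ := approx (conj_mem hx h) N hNo
  have ha' : (g : G ⧸ N) * x * (g : G ⧸ N)⁻¹ = (x : G ⧸ N) ^ a := ha
  have hb' : (h : G ⧸ N) * x * (h : G ⧸ N)⁻¹ = (x : G ⧸ N) ^ b := hb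
  show (g : G ⧸ N) * h * x * ((g : G ⧸ N) * h)⁻¹ = (h : G ⧸ N) * g * x * ((h : G ⧸ N) * g)⁻¹
  have e1 : (g : G ⧸ N) * h * x * ((g : G ⧸ N) * h)⁻¹ = ((x : G ⧸ N) ^ a) ^ b := by
    rw [← ha', conj_zpow, ← hb']; group
  have e2 : (h : G ⧸ N) * g * x * ((h : G ⧸ N) * g)⁻¹ = ((x : G ⧸ N) ^ a) ^ b := by
    rw [← zpow_mul, mul_comm a b, zpow_mul, ← hb', conj_zpow, ← ha']; group
  rw [e1, e2]

lemma commutator_commute_of_not_mem {x : G} (hx : x ∉ Stilde G) (g h : G) :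
    Commute ⁅g, h⁆ x := by
  have := commutator_commute_aux hx g h
  have h2 : ⁅g, h⁆ * x * ⁅g, h⁆⁻¹ = x := by
    have h3 := commutator_commute_aux hx (g * h) (g⁻¹ * h⁻¹)
    have h4 := commutator_commute_aux hx (h * g) (g⁻¹ * h⁻¹)
    have h5 := commutator_commute_aux hx g⁻¹ h⁻¹
    have e : ⁅g, h⁆ = (g * h) * (g⁻¹ * h⁻¹) := by rw [commutatorElement_def]; group
    rw [e, h3]
    have e2 : g⁻¹ * h⁻¹ * (g * h) * x * (g⁻¹ * h⁻¹ * (g * h))⁻¹ =
        g⁻¹ * h⁻¹ * ((g * h) * x * (g * h)⁻¹) * (g⁻¹ * h⁻¹)⁻¹ := by group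
    rw [e2, this]
    group
  rw [mul_inv_eq_iff_eq_mul] at h2
  exact h2

variable (hS : Stilde G ≠ ⊤)
include hS

lemma exists_not_mem_S : ∃ x : G, x ∉ Stilde G := by
  by_contra h
  push Not at h
  exact hS ((Subgroup.eq_top_iff' _).2 h)

/-- induction principle: a property closed under products and inverses holding off S holds -/
lemma commutator_central (g h k : G) : Commute ⁅g, h⁆ k := by
  by_cases hk : k ∈ Stilde G
  · obtain ⟨x, hx⟩ := exists_not_mem_S hS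
    have h1 : x * k ∉ Stilde G := fun h' => hx ((Subgroup.mul_mem_cancel_right _ hk).1 h')
    have h2 := commutator_commute_of_not_mem h1 g h
    have h3 := commutator_commute_of_not_mem hx g h
    have : k = x⁻¹ * (x * k) := by group
    rw [this]
    exact (h3.inv_right).mul_right h2
  · exact commutator_commute_of_not_mem hk g h

lemma comm_mul_right (x y z : G) : ⁅x, y * z⁆ = ⁅x, y⁆ * ⁅x, z⁆ := by
  rw [commutatorElement_mul_right_eq_mul_conj]
  have := commutator_central hS x z y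
  rw [mul_assoc _ y, ← this.eq]; group

lemma comm_mul_left (x y z : G) : ⁅x * y, z⁆ = ⁅x, z⁆ * ⁅y, z⁆ := by
  rw [← commutatorElement_inv, comm_mul_right hS, mul_inv_rev,
    commutatorElement_inv, commutatorElement_inv]
  exact commutator_central hS _ _ _

lemma comm_pow_left (x y : G) (n : ℕ) : ⁅x ^ n, y⁆ = ⁅x, y⁆ ^ n := by
  induction n with
  | zero => simp
  | succ n ih => rw [pow_succ, comm_mul_left hS, ih, pow_succ]

lemma comm_pow_right (x y : G) (n : ℕ) : ⁅x, y ^ n⁆ = ⁅x, y⁆ ^ n := by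
  induction n with
  | zero => simp
  | succ n ih => rw [pow_succ, comm_mul_right hS, ih, pow_succ]

lemma comm_self_mul (x y : G) : ⁅x, y * x⁆ = ⁅x, y⁆ := by
  rw [comm_mul_right hS]; simp

lemma comm_mem_closure {x : G} (hx : x ∉ Stilde G) (y : G) :
    ⁅x, y⁆ ∈ (Subgroup.zpowers x).topologicalClosure := by
  rw [commutatorElement_def]
  have h1 := conj_mem hx y
  have h2 : x * y * x⁻¹ * y⁻¹ = x * (y * x * y⁻¹)⁻¹ := by group
  rw [h2]
  exact mul_mem (Subgroup.le_topologicalClosure _ (Subgroup.mem_zpowers x)) (inv_mem h1)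

end basic

section cyc

variable {Q : Type*} [Group Q]

lemma gcd_pow {p : ℕ} (hp : p.Prime) (a : ℤ) (k : ℕ) : ∃ i ≤ k, Int.gcd a (p ^ k : ℕ) = p ^ i := by
  have h : Int.gcd a (p ^ k : ℕ) ∣ p ^ k := by
    have := Int.gcd_dvd_right a (p ^ k : ℕ)
    exact_mod_cast this
  exact (Nat.dvd_prime_pow hp).1 h

lemma bez {a b n : ℤ} (h : (Int.gcd a b : ℤ) ∣ n) : ∃ x y : ℤ, n = a * x + b * y := by
  obtain ⟨c, rfl⟩ := h
  exact ⟨Int.gcdA a b * c, Int.gcdB a b * c, by rw [Int.gcd_eq_gcd_ab]; ring⟩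

lemma comp_of_mem {p : ℕ} (hp : p.Prime) {u α β : Q} {k : ℕ} (hu : u ^ (p ^ k) = 1)
    (hα : α ∈ Subgroup.zpowers u) (hβ : β ∈ Subgroup.zpowers u) :
    α ∈ Subgroup.zpowers β ∨ β ∈ Subgroup.zpowers α := by
  obtain ⟨a, rfl⟩ := hα
  obtain ⟨b, rfl⟩ := hβ
  simp only
  obtain ⟨i, -, hi⟩ := gcd_pow hp a k
  obtain ⟨j, -, hj⟩ := gcd_pow hp b k
  have main : ∀ a b : ℤ, Int.gcd a (p ^ k : ℕ) ∣ Int.gcd b (p ^ k : ℕ) →
      u ^ b ∈ Subgroup.zpowers (u ^ a) := by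
    intro a b h
    have h1 : (Int.gcd a (p ^ k : ℕ) : ℤ) ∣ b :=
      (Int.natCast_dvd_natCast.2 h).trans (Int.gcd_dvd_left b _)
    obtain ⟨s, t, hst⟩ := bez h1
    refine ⟨s, ?_⟩
    show (u ^ a) ^ s = u ^ b
    rw [hst, zpow_add, zpow_mul u a s, zpow_mul u _ t, zpow_natCast, hu, one_zpow, mul_one]
  rcases le_total i j with h | h
  · right
    apply main
    rw [hi, hj]
    exact pow_dvd_pow p h
  · left
    apply main
    rw [hi, hj]
    exact pow_dvd_pow p h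

lemma gen_mem {α δ : Q} (h : (α * δ) ∈ Subgroup.zpowers δ ∨ δ ∈ Subgroup.zpowers (α * δ))
    (hn : α ∉ Subgroup.zpowers δ) : α ∈ Subgroup.zpowers (α * δ) := by
  rcases h with h | h
  · exact absurd ((Subgroup.mul_mem_cancel_right _ (Subgroup.mem_zpowers δ)).1 h) hn
  · have := mul_mem (Subgroup.mem_zpowers (α * δ)) (inv_mem h)
    simpa using this

end cyc

section main

/-- the elements of the centre killed by `n` -/
def centerTor (G : Type*) [Group G] (n : ℕ) : Subgroup (Subgroup.center G) where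
  carrier := {z | z ^ n = 1}
  one_mem' := one_pow n
  mul_mem' := by
    intro a b ha hb
    have hc : Commute a b := Subtype.ext ((Subgroup.mem_center_iff.1 b.2) a)
    show (a * b) ^ n = 1
    rw [hc.mul_pow, show a ^ n = 1 from ha, show b ^ n = 1 from hb, one_mul]
  inv_mem' := by
    intro a ha
    show a⁻¹ ^ n = 1
    rw [inv_pow, show a ^ n = 1 from ha, inv_one]

variable [IsTopologicalGroup G] [CompactSpace G] [T2Space G] [TotallyDisconnectedSpace G]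

lemma mem_closure_of_quot {H : Subgroup G} {y : G}
    (h : ∀ N : Subgroup G, N.Normal → IsOpen (N : Set G) → ∃ z ∈ H, y⁻¹ * z ∈ N) :
    y ∈ H.topologicalClosure := by
  show y ∈ closure (H : Set G)
  rw [mem_closure_iff]
  intro U hU hy
  obtain ⟨N, hN⟩ := ProfiniteGrp.exist_openNormalSubgroup_sub_open_nhds_of_one
    (U := (fun z => y * z) ⁻¹' U) (hU.preimage (continuous_const.mul continuous_id)) (by simpa)
  obtain ⟨z, hz, hz2⟩ := h N.toSubgroup N.isNormal' N.isOpen'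
  refine ⟨z, ?_, hz⟩
  have := hN hz2
  simpa using this

lemma tors_pow {p : ℕ} (hp : p.Prime) (hpp : IsProP p G) {n : ℕ} (hn : n ≠ 0) {z : G}
    (hz : z ^ n = 1) : z ^ (p ^ (n.factorization p)) = 1 := by
  by_contra hne
  obtain ⟨N, hN, hNo, hNz⟩ := exists_not_mem hne
  obtain ⟨s, hs⟩ := hpp N hN hNo
  apply hNz
  set w := z ^ (p ^ (n.factorization p)) with hw
  have h1 : w ^ (p ^ s) ∈ N := by
    rw [← hs]; exact Subgroup.pow_index_mem N w
  have h2 : w ^ (n / p ^ (n.factorization p)) = 1 := by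
    rw [hw, ← pow_mul, Nat.ordProj_mul_ordCompl_eq_self, hz]
  have hc : Nat.Coprime (p ^ s) (n / p ^ (n.factorization p)) :=
    (Nat.coprime_ordCompl hp hn).pow_left s
  have h3 : ((w : G) : G ⧸ N) ^ (p ^ s) = 1 := by
    have : ((w ^ (p ^ s) : G) : G ⧸ N) = 1 := (QuotientGroup.eq_one_iff _).2 h1
    exact this
  have h4 : ((w : G) : G ⧸ N) ^ (n / p ^ (n.factorization p)) = 1 := by
    have : ((w ^ (n / p ^ (n.factorization p)) : G) : G ⧸ N) = 1 := by rw [h2]; rfl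
    exact this
  have h5 : ((w : G) : G ⧸ N) = 1 := by
    rw [← orderOf_eq_one_iff, ← Nat.dvd_one, ← hc.gcd_eq_one]
    exact Nat.dvd_gcd (orderOf_dvd_of_pow_eq_one h3) (orderOf_dvd_of_pow_eq_one h4)
  exact (QuotientGroup.eq_one_iff _).1 h5

lemma pow_mem_closure {p : ℕ} (hp : p.Prime) (hpp : IsProP p G) {x c : G}
    (hc : c ∈ (Subgroup.zpowers x).topologicalClosure) (hc1 : c ≠ 1) :
    ∃ k, x ^ (p ^ k) ∈ (Subgroup.zpowers c).topologicalClosure := by
  obtain ⟨N0, hN0, hN0o, hcN⟩ := exists_not_mem hc1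
  obtain ⟨r, hr⟩ := hpp N0 hN0 hN0o
  refine ⟨r, mem_closure_of_quot ?_⟩
  intro N hN hNo
  have hN1 : (N ⊓ N0).Normal := inferInstance
  have hN1o : IsOpen ((N ⊓ N0 : Subgroup G) : Set G) := hNo.inter hN0o
  obtain ⟨s, hs⟩ := hpp _ hN1 hN1o
  obtain ⟨m, hm⟩ := approx hc (N ⊓ N0) hN1o
  obtain ⟨j, -, hj⟩ := gcd_pow hp m s
  have hjr : j < r := by
    by_contra hjr
    push Not at hjr
    apply hcN
    have h1 : ((p ^ r : ℕ) : ℤ) ∣ m := by
      have : ((p ^ r : ℕ) : ℤ) ∣ (Int.gcd m (p ^ s : ℕ) : ℤ) := by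
        rw [hj]; exact Int.natCast_dvd_natCast.2 (pow_dvd_pow p hjr)
      exact this.trans (Int.gcd_dvd_left m _)
    obtain ⟨t, ht⟩ := h1
    have h2 : x ^ m ∈ N0 := by
      rw [ht, zpow_mul, zpow_natCast, ← hr]
      exact zpow_mem (Subgroup.pow_index_mem N0 x) t
    have h3 : c⁻¹ * x ^ m ∈ N ⊓ N0 := QuotientGroup.eq.1 (by rw [hm]; rfl)
    have h4 : c⁻¹ ∈ N0 := (Subgroup.mul_mem_cancel_right _ h2).1 h3.2
    exact inv_mem_iff.1 h4
  have h5 : (Int.gcd m (p ^ s : ℕ) : ℤ) ∣ ((p ^ r : ℕ) : ℤ) := by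
    rw [hj]; exact Int.natCast_dvd_natCast.2 (pow_dvd_pow p hjr.le)
  obtain ⟨u, v, huv⟩ := bez h5
  refine ⟨c ^ u, ⟨u, rfl⟩, ?_⟩
  have h6 : ((x ^ (p ^ r) : G) : G ⧸ (N ⊓ N0)) = ((c ^ u : G) : G ⧸ (N ⊓ N0)) := by
    have h7 : ((x : G) : G ⧸ (N ⊓ N0)) ^ (p ^ s) = 1 := by
      have : ((x ^ (p ^ s) : G) : G ⧸ (N ⊓ N0)) = 1 := by
        rw [QuotientGroup.eq_one_iff, ← hs]; exact Subgroup.pow_index_mem _ x
      exact this
    show ((x : G) : G ⧸ (N ⊓ N0)) ^ (p ^ r) = ((c : G) : G ⧸ (N ⊓ N0)) ^ u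
    rw [hm, ← zpow_natCast, huv, zpow_add, zpow_mul, zpow_mul _ ((p ^ s : ℕ) : ℤ), zpow_natCast,
      h7, one_zpow, mul_one]
  exact (QuotientGroup.eq.1 h6).1

variable {p : ℕ} (hp : p.Prime) (hpp : IsProP p G) (hS : Stilde G ≠ ⊤)
include hp hpp hS

lemma tors_of_comm {x y : G} (hx : x ∉ Stilde G) (hxy : ⁅x, y⁆ ≠ 1) : ∃ k, x ^ (p ^ k) = 1 := by
  obtain ⟨k, hk⟩ := pow_mem_closure hp hpp (comm_mem_closure hS hx y) hxy
  have h1 : Commute (x ^ (p ^ k)) y := by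
    have hcl : IsClosed {z : G | z * y = y * z} :=
      isClosed_eq (continuous_id.mul continuous_const) (continuous_const.mul continuous_id)
    have hsub : ((Subgroup.zpowers ⁅x, y⁆ : Subgroup G) : Set G) ⊆ {z : G | z * y = y * z} := by
      rintro _ ⟨m, rfl⟩
      exact (commutator_central hS x y y).zpow_left m
    exact closure_minimal hsub hcl hk
  have h2 : ⁅x, y⁆ ^ (p ^ k) = 1 := by
    rw [← comm_pow_left hS]
    exact commutatorElement_eq_one_iff_commute.2 h1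
  have h3 : (x ^ (p ^ k)) ^ (p ^ k) = 1 := by
    have hcl : IsClosed {z : G | z ^ (p ^ k) = 1} :=
      isClosed_eq (continuous_pow _) continuous_const
    have hsub : ((Subgroup.zpowers ⁅x, y⁆ : Subgroup G) : Set G) ⊆ {z : G | z ^ (p ^ k) = 1} := by
      rintro _ ⟨m, rfl⟩
      show (⁅x, y⁆ ^ m) ^ (p ^ k) = 1
      rw [← zpow_natCast, ← zpow_mul, mul_comm, zpow_mul, zpow_natCast, h2, one_zpow]
    exact closure_minimal hsub hcl hk
  exact ⟨k + k, by rw [pow_add, pow_mul, h3]⟩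

lemma comm_mem_zpowers {x : G} (hx : x ∉ Stilde G) (y : G) : ⁅x, y⁆ ∈ Subgroup.zpowers x := by
  by_cases hxy : ⁅x, y⁆ = 1
  · rw [hxy]; exact one_mem _
  obtain ⟨k, hk⟩ := tors_of_comm hp hpp hS hx hxy
  have hfin : Set.Finite ((Subgroup.zpowers x : Subgroup G) : Set G) := by
    have : IsOfFinOrder x := isOfFinOrder_iff_pow_eq_one.2 ⟨p ^ k, pow_pos hp.pos k, hk⟩
    exact finite_zpowers.2 this
  have h := comm_mem_closure hS hx y
  have h' : ⁅x, y⁆ ∈ closure ((Subgroup.zpowers x : Subgroup G) : Set G) := h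
  rwa [hfin.isClosed.closure_eq] at h'

lemma comm_mem_zpowers' {x : G} (hx : x ∉ Stilde G) (y : G) : ⁅y, x⁆ ∈ Subgroup.zpowers x := by
  rw [← commutatorElement_inv]
  exact inv_mem (comm_mem_zpowers hp hpp hS hx y)

lemma tors_of_comm' {x y : G} (hx : x ∉ Stilde G) (hxy : ⁅y, x⁆ ≠ 1) : ∃ k, x ^ (p ^ k) = 1 := by
  refine tors_of_comm hp hpp hS hx (y := y) ?_
  intro h
  apply hxy
  rw [← commutatorElement_inv, h, inv_one]

/-- Any two commutators `[x,a]`, `[y,b]` with `x, y` outside `S̃(G)` are comparable. -/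
lemma comparable {x y : G} (hx : x ∉ Stilde G) (hy : y ∉ Stilde G) (a b : G) :
    ⁅x, a⁆ ∈ Subgroup.zpowers ⁅y, b⁆ ∨ ⁅y, b⁆ ∈ Subgroup.zpowers ⁅x, a⁆ := by
  by_cases h1 : ⁅x, a⁆ = 1
  · left; rw [h1]; exact one_mem _
  by_cases h2 : ⁅y, b⁆ = 1
  · right; rw [h2]; exact one_mem _
  obtain ⟨k, hk⟩ := tors_of_comm hp hpp hS hx h1
  obtain ⟨l, hl⟩ := tors_of_comm hp hpp hS hy h2
  have cx : ∀ s t : G, ⁅x, s⁆ ∈ Subgroup.zpowers ⁅x, t⁆ ∨ ⁅x, t⁆ ∈ Subgroup.zpowers ⁅x, s⁆ :=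
    fun s t => comp_of_mem hp hk (comm_mem_zpowers hp hpp hS hx s) (comm_mem_zpowers hp hpp hS hx t)
  have cy : ∀ s t : G, ⁅y, s⁆ ∈ Subgroup.zpowers ⁅y, t⁆ ∨ ⁅y, t⁆ ∈ Subgroup.zpowers ⁅y, s⁆ :=
    fun s t => comp_of_mem hp hl (comm_mem_zpowers hp hpp hS hy s) (comm_mem_zpowers hp hpp hS hy t)
  have hle : ∀ {s t : G}, s ∈ Subgroup.zpowers t → Subgroup.zpowers s ≤ Subgroup.zpowers t :=
    fun h => Subgroup.zpowers_le.2 h
  have hu : ∃ u0 : G, ⁅x, a⁆ ∈ Subgroup.zpowers ⁅x, u0⁆ ∧ ⁅y, b⁆ ∈ Subgroup.zpowers ⁅y, u0⁆ := by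
    by_cases h3 : ⁅x, a⁆ ∈ Subgroup.zpowers ⁅x, b⁆
    · exact ⟨b, h3, Subgroup.mem_zpowers _⟩
    by_cases h4 : ⁅y, b⁆ ∈ Subgroup.zpowers ⁅y, a⁆
    · exact ⟨a, Subgroup.mem_zpowers _, h4⟩
    refine ⟨a * b, ?_, ?_⟩
    · rw [comm_mul_right hS]
      refine gen_mem ?_ h3
      rw [← comm_mul_right hS]
      exact cx _ _
    · rw [comm_mul_right hS, (commutator_central hS y a _).eq]
      refine gen_mem ?_ h4
      rw [← (commutator_central hS y a _).eq, ← comm_mul_right hS]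
      exact cy _ _
  obtain ⟨u0, hu1, hu2⟩ := hu
  have finish : ∀ u : G, u ∉ Stilde G → ⁅x, a⁆ ∈ Subgroup.zpowers ⁅x, u⁆ →
      ⁅y, b⁆ ∈ Subgroup.zpowers ⁅y, u⁆ →
      ⁅x, a⁆ ∈ Subgroup.zpowers ⁅y, b⁆ ∨ ⁅y, b⁆ ∈ Subgroup.zpowers ⁅x, a⁆ := by
    intro u huS h3 h4
    have h5 : ⁅x, u⁆ ≠ 1 := by
      intro h; rw [h] at h3
      exact h1 (by simpa using h3)
    obtain ⟨m, hm⟩ := tors_of_comm' hp hpp hS huS h5
    exact comp_of_mem hp hm (hle (comm_mem_zpowers' hp hpp hS huS x) h3)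
      (hle (comm_mem_zpowers' hp hpp hS huS y) h4)
  by_cases hu0 : u0 ∈ Stilde G
  · have hu1S : u0 * x ∉ Stilde G := fun h => hx ((Subgroup.mul_mem_cancel_left _ hu0).1 h)
    by_cases h3 : ⁅y, b⁆ ∈ Subgroup.zpowers ⁅y, u0 * x⁆
    · refine finish (u0 * x) hu1S ?_ h3
      rw [comm_mul_right hS]; simpa using hu1
    · have h4 : ⁅y, u0⁆ ∈ Subgroup.zpowers ⁅y, x⁆ := by
        by_contra h4
        apply h3
        rw [comm_mul_right hS]
        refine hle (gen_mem ?_ h4) hu2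
        rw [← comm_mul_right hS]
        exact cy _ _
      have h5 : ⁅y, b⁆ ∈ Subgroup.zpowers x :=
        hle (comm_mem_zpowers' hp hpp hS hx y) (hle h4 hu2)
      exact comp_of_mem hp hk (comm_mem_zpowers hp hpp hS hx a) h5
  · exact finish u0 hu0 hu1 hu2

lemma comm_tors {x : G} (hx : x ∉ Stilde G) (y : G) : ∃ k, ⁅x, y⁆ ^ (p ^ k) = 1 := by
  by_cases h : ⁅x, y⁆ = 1
  · exact ⟨0, by rw [h, one_pow]⟩
  obtain ⟨k, hk⟩ := tors_of_comm hp hpp hS hx h
  obtain ⟨m, hm⟩ := comm_mem_zpowers hp hpp hS hx y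
  have hm' : x ^ m = ⁅x, y⁆ := hm
  refine ⟨k, ?_⟩
  rw [← hm', ← zpow_natCast, ← zpow_mul, mul_comm, zpow_mul, zpow_natCast, hk, one_zpow]

lemma bounded : ∃ n, ∀ x, x ∉ Stilde G → ∀ a : G, ⁅x, a⁆ ^ (p ^ n) = 1 := by
  by_contra hcon
  push Not at hcon
  obtain ⟨x0, hx0, a0, h0⟩ := hcon 0
  have h0' : ⁅x0, a0⁆ ≠ 1 := by simpa using h0
  obtain ⟨N, hN, hNo, hNn⟩ := exists_not_mem h0'
  obtain ⟨s, hs⟩ := hpp N hN hNo
  obtain ⟨m, hm⟩ := comm_tors hp hpp hS hx0 a0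
  obtain ⟨x, hx, a, ha⟩ := hcon (m + s)
  rcases comparable hp hpp hS hx0 hx a0 a with ⟨t, ht⟩ | ⟨t, ht⟩
  · have ht' : ⁅x, a⁆ ^ t = ⁅x0, a0⁆ := ht
    obtain ⟨j, hj⟩ := comm_tors hp hpp hS hx a
    obtain ⟨i, -, hi⟩ := gcd_pow hp t j
    rcases lt_or_ge i s with his | his
    · apply ha
      obtain ⟨u, v, huv⟩ := bez (show (Int.gcd t (p ^ j : ℕ) : ℤ) ∣ ((p ^ i : ℕ) : ℤ) by
        rw [hi])
      have h1 : ⁅x, a⁆ ^ (p ^ i) = ⁅x0, a0⁆ ^ u := by
        rw [← zpow_natCast, huv, zpow_add, zpow_mul, zpow_mul _ ((p ^ j : ℕ) : ℤ), zpow_natCast, hj,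
          one_zpow, mul_one, ht']
      have h2 : ⁅x, a⁆ ^ (p ^ (i + m)) = 1 := by
        rw [pow_add, pow_mul, h1, ← zpow_natCast, ← zpow_mul, mul_comm, zpow_mul, zpow_natCast, hm,
          one_zpow]
      have h3 : m + s = (i + m) + (s - i) := by omega
      rw [h3, pow_add, pow_mul, h2, one_pow]
    · apply hNn
      have h1 : ((p ^ s : ℕ) : ℤ) ∣ t := by
        have : ((p ^ s : ℕ) : ℤ) ∣ (Int.gcd t (p ^ j : ℕ) : ℤ) := by
          rw [hi]; exact Int.natCast_dvd_natCast.2 (pow_dvd_pow p his)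
        exact this.trans (Int.gcd_dvd_left t _)
      obtain ⟨r, hr⟩ := h1
      rw [← ht', hr, zpow_mul, zpow_natCast, ← hs]
      exact zpow_mem (Subgroup.pow_index_mem N _) r
  · have ht' : ⁅x0, a0⁆ ^ t = ⁅x, a⁆ := ht
    apply ha
    rw [← ht', pow_add, pow_mul]
    have : (⁅x0, a0⁆ ^ t) ^ (p ^ m) = 1 := by
      rw [← zpow_natCast, ← zpow_mul, mul_comm, zpow_mul, zpow_natCast, hm, one_zpow]
    rw [this, one_pow]

/-- There is a commutator whose powers contain all commutators. -/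
lemma exists_gen : ∃ x a : G, x ∉ Stilde G ∧ ∀ y b : G, ⁅y, b⁆ ∈ Subgroup.zpowers ⁅x, a⁆ := by
  obtain ⟨n, hn⟩ := bounded hp hpp hS
  obtain ⟨x0, hx0⟩ := exists_not_mem_S hS
  let D : Set ℕ := {d | ∃ x, x ∉ Stilde G ∧ ∃ a : G, orderOf ⁅x, a⁆ = d}
  have hne : D.Nonempty := ⟨_, x0, hx0, 1, rfl⟩
  have hbdd : BddAbove D := by
    refine ⟨p ^ n, ?_⟩
    rintro _ ⟨x, hx, a, rfl⟩
    exact Nat.le_of_dvd (pow_pos hp.pos n) (orderOf_dvd_of_pow_eq_one (hn x hx a))
  obtain ⟨x, hx, a, hxa⟩ := Nat.sSup_mem hne hbdd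
  have main : ∀ y, y ∉ Stilde G → ∀ b : G, ⁅y, b⁆ ∈ Subgroup.zpowers ⁅x, a⁆ := by
    intro y hy b
    rcases comparable hp hpp hS hx hy a b with h | h
    · have hle : Subgroup.zpowers ⁅x, a⁆ ≤ Subgroup.zpowers ⁅y, b⁆ := Subgroup.zpowers_le.2 h
      have hfin : Finite (Subgroup.zpowers ⁅y, b⁆) := by
        have : IsOfFinOrder ⁅y, b⁆ :=
          isOfFinOrder_iff_pow_eq_one.2 ⟨p ^ n, pow_pos hp.pos n, hn y hy b⟩
        exact (finite_zpowers.2 this).to_subtype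
      have hcard : Nat.card (Subgroup.zpowers ⁅y, b⁆) ≤ Nat.card (Subgroup.zpowers ⁅x, a⁆) := by
        rw [Nat.card_zpowers, Nat.card_zpowers, hxa]
        exact le_csSup hbdd ⟨y, hy, b, rfl⟩
      rw [Subgroup.eq_of_le_of_card_ge hle hcard]
      exact Subgroup.mem_zpowers _
    · exact h
  refine ⟨x, a, hx, ?_⟩
  intro y b
  by_cases hy : y ∈ Stilde G
  · have h1 : x * y ∉ Stilde G := fun h' => hx ((Subgroup.mul_mem_cancel_right _ hy).1 h')
    have h2 := main _ h1 b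
    rw [comm_mul_left hS] at h2
    exact (Subgroup.mul_mem_cancel_left _ (main x hx b)).1 h2
  · exact main y hy b

/-- The closed derived subgroup of a pro-`p` group with `S̃(G) ≠ G` is a finite cyclic group of
order a power of `p`. -/
theorem derived_cyclic : ∃ (c : G) (n : ℕ),
    (commutator G).topologicalClosure = Subgroup.zpowers c ∧ orderOf c = p ^ n := by
  obtain ⟨x, a, hx, h⟩ := exists_gen hp hpp hS
  obtain ⟨k, hk⟩ := comm_tors hp hpp hS hx a
  obtain ⟨n, -, hn⟩ := (Nat.dvd_prime_pow hp).1 (orderOf_dvd_of_pow_eq_one hk)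
  refine ⟨⁅x, a⁆, n, ?_, hn⟩
  have hfin : Set.Finite ((Subgroup.zpowers ⁅x, a⁆ : Subgroup G) : Set G) := by
    have : IsOfFinOrder ⁅x, a⁆ := isOfFinOrder_iff_pow_eq_one.2 ⟨p ^ k, pow_pos hp.pos k, hk⟩
    exact finite_zpowers.2 this
  apply le_antisymm
  · refine Subgroup.topologicalClosure_minimal _ ?_ hfin.isClosed
    rw [commutator_def, Subgroup.commutator_le]
    intro y _ b _
    exact h y b
  · refine le_trans ?_ (Subgroup.le_topologicalClosure _)
    rw [Subgroup.zpowers_le, commutator_def]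
    exact Subgroup.commutator_mem_commutator (Subgroup.mem_top _) (Subgroup.mem_top _)

lemma center_tors (hna : ∃ a b : G, ¬ Commute a b) {z : G} (hz : z ∈ Subgroup.center G) :
    ∃ k, z ^ (p ^ k) = 1 := by
  obtain ⟨a, b, hab⟩ := hna
  have hex : ∃ x, x ∉ Stilde G ∧ ∃ y : G, ⁅x, y⁆ ≠ 1 := by
    by_contra hcon
    push Not at hcon
    apply hab
    rw [← commutatorElement_eq_one_iff_commute]
    by_cases ha : a ∈ Stilde G
    · obtain ⟨x, hx⟩ := exists_not_mem_S hS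
      have h1 : x * a ∉ Stilde G := fun h' => hx ((Subgroup.mul_mem_cancel_right _ ha).1 h')
      have h2 := hcon _ h1 b
      rw [comm_mul_left hS, hcon x hx b, one_mul] at h2
      exact h2
    · exact hcon a ha b
  obtain ⟨x, hx, y, hxy⟩ := hex
  obtain ⟨j, hj⟩ := tors_of_comm hp hpp hS hx hxy
  have hzc : ∀ g : G, Commute z g := fun g => ((Subgroup.mem_center_iff.1 hz) g).symm
  have hzc1 : ∀ g : G, ⁅z, g⁆ = 1 := fun g => commutatorElement_eq_one_iff_commute.2 (hzc g)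
  -- if `x z^i` is outside S then z^i is torsion
  have key : ∀ i : ℕ, x * z ^ i ∉ Stilde G → ∃ k, (z ^ i) ^ (p ^ k) = 1 := by
    intro i hi
    have h1 : ⁅x * z ^ i, y⁆ ≠ 1 := by
      rw [comm_mul_left hS, comm_pow_left hS, hzc1 y, one_pow, mul_one]
      exact hxy
    obtain ⟨k, hk⟩ := tors_of_comm hp hpp hS hi h1
    refine ⟨k + j, ?_⟩
    have hc : Commute x (z ^ i) := ((hzc x).pow_left i).symm
    have h2 : (x * z ^ i) ^ (p ^ (k + j)) = 1 := by rw [pow_add, pow_mul, hk, one_pow]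
    have h3 : x ^ (p ^ (k + j)) = 1 := by rw [add_comm, pow_add, pow_mul, hj, one_pow]
    rw [hc.mul_pow, h3, one_mul] at h2
    exact h2
  by_cases h1 : x * z ∈ Stilde G
  · by_cases h2 : z ∈ Stilde G
    · exact absurd ((Subgroup.mul_mem_cancel_right _ h2).1 h1) hx
    · have h3 : x * z ^ 2 ∉ Stilde G := by
        intro h
        apply h2
        have : x * z ^ 2 = (x * z) * z := by rw [pow_two, mul_assoc]
        rw [this] at h
        exact (Subgroup.mul_mem_cancel_left _ h1).1 h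
      obtain ⟨k, hk⟩ := key 2 h3
      refine ⟨_, tors_pow hp hpp (n := 2 * p ^ k) (by have := pow_pos hp.pos k; omega) ?_⟩
      rw [pow_mul, hk]
  · obtain ⟨k, hk⟩ := key 1 (by simpa using h1)
    exact ⟨k, by simpa using hk⟩

/-- A non-abelian pro-`p` group with `S̃(G) ≠ G` has finite exponent. -/
theorem finite_exponent (hna : ∃ a b : G, ¬ Commute a b) : ∃ e : ℕ, ∀ g : G, g ^ (p ^ e) = 1 := by
  obtain ⟨n, hn⟩ := bounded hp hpp hS
  obtain ⟨x, a, hx, h⟩ := exists_gen hp hpp hS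
  have hgn : ∀ g : G, g ^ (p ^ n) ∈ Subgroup.center G := by
    intro g
    rw [Subgroup.mem_center_iff]
    intro y
    have h1 : ⁅g ^ (p ^ n), y⁆ = 1 := by
      rw [comm_pow_left hS]
      obtain ⟨t, ht⟩ := h g y
      have ht' : ⁅x, a⁆ ^ t = ⁅g, y⁆ := ht
      rw [← ht', ← zpow_natCast, ← zpow_mul, mul_comm, zpow_mul, zpow_natCast, hn x hx a, one_zpow]
    exact (commutatorElement_eq_one_iff_commute.1 h1).symm
  -- Baire on the centre
  have hZc : IsClosed ((Subgroup.center G : Subgroup G) : Set G) := by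
    have : ((Subgroup.center G : Subgroup G) : Set G) = ⋂ g : G, {z | g * z = z * g} := by
      ext z; simp [Subgroup.mem_center_iff]
    rw [this]
    exact isClosed_iInter fun g => isClosed_eq (continuous_const.mul continuous_id)
      (continuous_id.mul continuous_const)
  have _ : CompactSpace (Subgroup.center G) := isCompact_iff_compactSpace.1 hZc.isCompact
  have hK : ∃ k : ℕ, IsOpen (centerTor G (p ^ k) : Set (Subgroup.center G)) := by
    have hcl : ∀ k : ℕ, IsClosed {z : Subgroup.center G | z ^ (p ^ k) = 1} := fun k =>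
      isClosed_eq (continuous_pow _) continuous_const
    have hun : ⋃ k : ℕ, {z : Subgroup.center G | z ^ (p ^ k) = 1} = Set.univ := by
      rw [Set.eq_univ_iff_forall]
      intro z
      obtain ⟨k, hk⟩ := center_tors hp hpp hS hna z.2
      exact Set.mem_iUnion.2 ⟨k, Subtype.ext (by simpa using hk)⟩
    obtain ⟨k, z, hz⟩ := nonempty_interior_of_iUnion_of_closed hcl hun
    refine ⟨k, Subgroup.isOpen_of_mem_nhds _ (g := z) ?_⟩
    refine Filter.mem_of_superset (mem_interior_iff_mem_nhds.1 hz) ?_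
    intro w hw
    exact hw
  obtain ⟨k, hk⟩ := hK
  set K := centerTor G (p ^ k) with hKdef
  have hidx : K.index ≠ 0 := by
    have _ : Finite (Subgroup.center G ⧸ K) := Subgroup.quotient_finite_of_isOpen K hk
    have h2 : K.FiniteIndex := Subgroup.finiteIndex_of_finite_quotient
    exact h2.index_ne_zero
  have hN0 : K.index * p ^ k ≠ 0 := mul_ne_zero hidx (pow_pos hp.pos k).ne'
  refine ⟨n + (K.index * p ^ k).factorization p, ?_⟩
  intro g
  rw [pow_add, pow_mul]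
  apply tors_pow hp hpp hN0
  have h1 := Subgroup.pow_index_mem K (⟨g ^ (p ^ n), hgn g⟩ : Subgroup.center G)
  have h2 : ((⟨g ^ (p ^ n), hgn g⟩ : Subgroup.center G) ^ K.index) ^ (p ^ k) = 1 := h1
  rw [← pow_mul] at h2
  have h3 := congrArg Subtype.val h2
  simpa using h3

end main

end Pool.Agent.X270.Cappitt
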