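import Pool.Agent.TH505.OCDC.Decomp

set_option autoImplicit false

/-!
Oriented cycle double covers from symmetry: general decomposition lemmas.
-/

namespace Pool.Agent.X270.OCay

open Finset Pool.Agent.TH505.OCDC

variable {V : Type} [Fintype V] {G : SimpleGraph V}

/-- the arc set `A` is decomposed into directed cycles of `G` -/
def Cov (G : SimpleGraph V) (A : V → V → Prop) : Prop :=
  ∃ C : List (Σ v : V, G.Walk v v), (∀ c ∈ C, c.2.IsCycle) ∧ ∀ u v, tot C u v = ind (A u v)

omit [Fintype V] in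
lemma Cov.congr {A B : V → V → Prop} (h : Cov G A) (hAB : ∀ u v, A u v ↔ B u v) : Cov G B := by
  have : A = B := by funext u v; exact propext (hAB u v)
  rwa [← this]

omit [Fintype V] in
lemma cov_empty {A : V → V → Prop} (h : ∀ u v, ¬ A u v) : Cov G A :=
  ⟨[], by simp, fun u v => by rw [tot_nil, ind_neg (h u v)]⟩

omit [Fintype V] in
lemma Cov.union {A B : V → V → Prop} (hA : Cov G A) (hB : Cov G B)
    (hd : ∀ u v, A u v → ¬ B u v) : Cov G (fun u v => A u v ∨ B u v) := by
  obtain ⟨C, hC, hC2⟩ := hA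
  obtain ⟨D, hD, hD2⟩ := hB
  refine ⟨C ++ D, ?_, ?_⟩
  · intro c hc
    rcases List.mem_append.1 hc with h | h
    · exact hC c h
    · exact hD c h
  · intro u v
    rw [tot_append, hC2, hD2]
    by_cases h1 : A u v
    · rw [ind_pos h1, ind_neg (hd u v h1), ind_pos (Or.inl h1)]
    · by_cases h2 : B u v
      · rw [ind_neg h1, ind_pos h2, ind_pos (Or.inr h2)]
      · rw [ind_neg h1, ind_neg h2, ind_neg (by tauto)]

omit [Fintype V] in
lemma cov_union_finset {ι : Type*} (s : Finset ι) (A : ι → V → V → Prop)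
    (h : ∀ i ∈ s, Cov G (A i))
    (hd : ∀ i ∈ s, ∀ j ∈ s, ∀ u v, A i u v → A j u v → i = j) :
    Cov G (fun u v => ∃ i ∈ s, A i u v) := by
  classical
  induction s using Finset.induction_on with
  | empty => exact cov_empty (by simp)
  | insert a s ha ih =>
    refine ((h a (mem_insert_self _ _)).union (ih (fun i hi => h i (mem_insert_of_mem hi))
      (fun i hi j hj => hd i (mem_insert_of_mem hi) j (mem_insert_of_mem hj))) ?_).congr ?_
    · rintro u v h1 ⟨j, hj, h2⟩
      have := hd a (mem_insert_self _ _) j (mem_insert_of_mem hj) u v h1 h2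
      exact ha (this ▸ hj)
    · intro u v
      rw [Finset.exists_mem_insert]

open scoped Classical in
omit [Fintype V] in
lemma ind_card {J : Type} [Fintype J] (a : J → V × V) (ha : Function.Injective a) (u v : V) :
    ind (∃ j, a j = (u, v)) = (univ.filter (fun j => a j = (u, v))).card := by
  by_cases h : ∃ j, a j = (u, v)
  · obtain ⟨j, hj⟩ := h
    rw [ind_pos ⟨j, hj⟩, eq_comm, card_eq_one]
    refine ⟨j, ?_⟩
    ext j'
    simp only [mem_filter, mem_univ, true_and, mem_singleton]
    constructor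
    · intro h; exact ha (h.trans hj.symm)
    · rintro rfl; exact hj
  · rw [ind_neg h, eq_comm, card_eq_zero, filter_eq_empty_iff]
    intro j _ hj
    exact h ⟨j, hj⟩

/-- A family of arcs with a successor map and no opposite arcs decomposes. -/
lemma cov_J {J : Type} [Fintype J] (a : J → V × V) (ha : Function.Injective a) (F : J → J)
    (hF : Function.Injective F) (hcomp : ∀ j, (a (F j)).1 = (a j).2)
    (hadj : ∀ j, G.Adj (a j).1 (a j).2) (hopp : ∀ j j', a j' ≠ (a j).swap) :
    Cov G (fun u v => ∃ j, a j = (u, v)) := by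
  classical
  refine directed_decomp _ _ rfl ?_ ?_ ?_
  · rintro u v ⟨j, hj⟩; have := hadj j; rwa [hj] at this
  · rintro u v ⟨j, hj⟩ ⟨j', hj'⟩
    exact hopp j j' (by rw [hj, hj']; rfl)
  · intro v
    have h1 : ∑ w, ind (∃ j, a j = (v, w)) = (univ.filter (fun j => (a j).1 = v)).card := by
      rw [Finset.card_eq_sum_card_fiberwise (f := fun j => (a j).2) (t := univ)
        (fun _ _ => mem_coe.2 (mem_univ _))]
      refine Finset.sum_congr rfl (fun w _ => ?_)
      rw [ind_card a ha, filter_filter]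
      congr 1
      ext j
      simp only [mem_filter, mem_univ, true_and, Prod.ext_iff]
    have h2 : ∑ w, ind (∃ j, a j = (w, v)) = (univ.filter (fun j => (a j).2 = v)).card := by
      rw [Finset.card_eq_sum_card_fiberwise (f := fun j => (a j).1) (t := univ)
        (fun _ _ => mem_coe.2 (mem_univ _))]
      refine Finset.sum_congr rfl (fun w _ => ?_)
      rw [ind_card a ha, filter_filter]
      congr 1
      ext j
      simp only [mem_filter, mem_univ, true_and, Prod.ext_iff]
      exact and_comm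
    rw [h1, h2]
    symm
    refine Finset.card_bij (fun j _ => F j) ?_ ?_ ?_
    · intro j hj
      simp only [mem_filter, mem_univ, true_and] at hj ⊢
      rw [hcomp, hj]
    · intro j _ j' _ h
      exact hF h
    · intro j hj
      obtain ⟨i, hi⟩ := (Finite.injective_iff_surjective.1 hF) j
      simp only [mem_filter, mem_univ, true_and] at hj
      refine ⟨i, ?_, hi⟩
      simp only [mem_filter, mem_univ, true_and]
      rw [← hcomp, hi, hj]

/-- Same with opposite arcs allowed as long as an invariant label separates them. -/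
theorem cov_label {J : Type} {Λ : Type*} [Fintype J] (a : J → V × V) (ha : Function.Injective a)
    (F : J → J) (hF : Function.Injective F) (hcomp : ∀ j, (a (F j)).1 = (a j).2)
    (hadj : ∀ j, G.Adj (a j).1 (a j).2) (L : J → Λ) (hL : ∀ j, L (F j) = L j)
    (hopp : ∀ j j', a j' = (a j).swap → L j ≠ L j') :
    Cov G (fun u v => ∃ j, a j = (u, v)) := by
  classical
  have h1 : ∀ ℓ : Λ, Cov G (fun u v => ∃ j, L j = ℓ ∧ a j = (u, v)) := by
    intro ℓ
    have := cov_J (G := G) (J := {j // L j = ℓ}) (fun j => a j.1)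
      (fun x y h => Subtype.ext (ha h))
      (fun j => ⟨F j.1, by rw [hL]; exact j.2⟩)
      (fun x y h => Subtype.ext (hF (congrArg Subtype.val h)))
      (fun j => hcomp j.1) (fun j => hadj j.1)
      (fun j j' h => hopp j.1 j'.1 h (j.2.trans j'.2.symm))
    refine this.congr ?_
    intro u v
    constructor
    · rintro ⟨j, hj⟩; exact ⟨j.1, j.2, hj⟩
    · rintro ⟨j, h1, h2⟩; exact ⟨⟨j, h1⟩, h2⟩
  refine (cov_union_finset (univ.image L) _ (fun ℓ _ => h1 ℓ) ?_).congr ?_
  · rintro i _ j _ u v ⟨x, hx, hx2⟩ ⟨y, hy, hy2⟩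
    rw [← hx, ← hy, ha (hx2.trans hy2.symm)]
  · intro u v
    constructor
    · rintro ⟨ℓ, _, j, _, hj⟩; exact ⟨j, hj⟩
    · rintro ⟨j, hj⟩; exact ⟨L j, mem_image_of_mem _ (mem_univ _), j, rfl, hj⟩

lemma sum_ind_eq (x : V) : ∑ w, ind (x = w) = 1 := by
  rw [Finset.sum_eq_single x]
  · exact ind_pos rfl
  · intro w _ hw
    exact ind_neg (fun h => hw h.symm)
  · intro h; exact absurd (mem_univ _) h

lemma deg_two (a b : V → V) (hab : ∀ v, a v ≠ b v) (v : V) :
    ∑ w, ind (a v = w ∨ b v = w) = 2 := by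
  have h : ∀ w, ind (a v = w ∨ b v = w) = ind (a v = w) + ind (b v = w) := by
    intro w
    by_cases h1 : a v = w
    · rw [ind_pos (Or.inl h1), ind_pos h1, ind_neg (fun h2 => hab v (h1.trans h2.symm))]
    · by_cases h2 : b v = w
      · rw [ind_pos (Or.inr h2), ind_neg h1, ind_pos h2]
      · rw [ind_neg (by tauto), ind_neg h1, ind_neg h2]
  rw [Finset.sum_congr rfl (fun w _ => h w), Finset.sum_add_distrib, sum_ind_eq, sum_ind_eq]

lemma pair_orient (a b : V → V) (ha : ∀ v, a (a v) = v) (hb : ∀ v, b (b v) = v)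
    (haa : ∀ v, G.Adj v (a v)) (hba : ∀ v, G.Adj v (b v)) (hab : ∀ v, a v ≠ b v) :
    ∃ g : V → V → ℤ, (∀ u v, g v u = - g u v) ∧
      (∀ u v, (a u = v ∨ b u = v) → g u v = 1 ∨ g u v = -1) ∧
      (∀ u v, ¬ (a u = v ∨ b u = v) → g u v = 0) ∧ ∀ u, ∑ w, g u w = 0 := by
  refine orient G _ (fun u v => a u = v ∨ b u = v) rfl ?_ ?_ ?_
  · rintro u v (h | h)
    · rw [← h]; exact haa u
    · rw [← h]; exact hba u
  · rintro u v (h | h)
    · left; rw [← h, ha]
    · right; rw [← h, hb]
  · intro v
    rw [deg_two a b hab v]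
    exact even_two

/-- A graph with three disjoint perfect matchings: the union of their arcs decomposes. -/
theorem cov_tait (a b c : V → V) (ha : ∀ v, a (a v) = v) (hb : ∀ v, b (b v) = v)
    (hc : ∀ v, c (c v) = v) (haa : ∀ v, G.Adj v (a v)) (hba : ∀ v, G.Adj v (b v))
    (hca : ∀ v, G.Adj v (c v)) (hab : ∀ v, a v ≠ b v) (hac : ∀ v, a v ≠ c v)
    (hbc : ∀ v, b v ≠ c v) :
    Cov G (fun u v => a u = v ∨ b u = v ∨ c u = v) := by
  obtain ⟨f, f1, f2, f3, f4⟩ := pair_orient b c hb hc hba hca hbc
  obtain ⟨g, g1, g2, g3, g4⟩ := pair_orient a c ha hc haa hca hac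
  obtain ⟨h, h1, h2, h3, h4⟩ := pair_orient a b ha hb haa hba hab
  -- the four cases
  have key : ∀ u v, (¬ (a u = v ∨ b u = v ∨ c u = v) ∧ f u v = 0 ∧ g u v = 0 ∧ h u v = 0) ∨
      ((a u = v ∨ b u = v ∨ c u = v) ∧ G.Adj u v ∧
        ((f u v = 0 ∧ (g u v = 1 ∨ g u v = -1) ∧ (h u v = 1 ∨ h u v = -1)) ∨
        (g u v = 0 ∧ (f u v = 1 ∨ f u v = -1) ∧ (h u v = 1 ∨ h u v = -1)) ∨
        (h u v = 0 ∧ (f u v = 1 ∨ f u v = -1) ∧ (g u v = 1 ∨ g u v = -1)))) := by
    intro u v
    by_cases ka : a u = v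
    · have kb : b u ≠ v := fun hh => hab u (ka.trans hh.symm)
      have kc : c u ≠ v := fun hh => hac u (ka.trans hh.symm)
      exact Or.inr ⟨Or.inl ka, ka ▸ haa u, Or.inl ⟨f3 u v (by tauto), g2 u v (by tauto),
        h2 u v (by tauto)⟩⟩
    · by_cases kb : b u = v
      · have kc : c u ≠ v := fun hh => hbc u (kb.trans hh.symm)
        exact Or.inr ⟨Or.inr (Or.inl kb), kb ▸ hba u, Or.inr (Or.inl ⟨g3 u v (by tauto),
          f2 u v (by tauto), h2 u v (by tauto)⟩)⟩
      · by_cases kc : c u = v
        · exact Or.inr ⟨Or.inr (Or.inr kc), kc ▸ hca u, Or.inr (Or.inr ⟨h3 u v (by tauto),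
            f2 u v (by tauto), g2 u v (by tauto)⟩)⟩
        · exact Or.inl ⟨by tauto, f3 u v (by tauto), g3 u v (by tauto), h3 u v (by tauto)⟩
  have mk : ∀ D : V → V → ℤ, (∀ u v, D v u = - D u v) →
      (∀ u v, D u v = 0 ∨ D u v = 1 ∨ D u v = -1) → (∀ u v, D u v ≠ 0 → G.Adj u v) →
      (∀ u, 2 * ∑ w, D u w = 0) →
      ∃ C : List (Σ v : V, G.Walk v v), (∀ c ∈ C, c.2.IsCycle) ∧
        ∀ u v, tot C u v = ind (D u v = 1) := by
    intro D d1 d2 d3 d4
    exact flow_decomp D d1 d2 d3 (fun u => by have := d4 u; omega)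
  have sumz : ∀ (p q r : ℤ) (D : V → V → ℤ) (u : V),
      (∀ v, 2 * D u v = p * f u v + q * g u v + r * h u v) → 2 * ∑ w, D u w = 0 := by
    intro p q r D u hD
    rw [Finset.mul_sum, Finset.sum_congr rfl (fun w _ => hD w), Finset.sum_add_distrib,
      Finset.sum_add_distrib, ← Finset.mul_sum, ← Finset.mul_sum, ← Finset.mul_sum, f4, g4, h4]
    ring
  obtain ⟨C1, c1, t1⟩ : ∃ C : List (Σ v : V, G.Walk v v), (∀ c ∈ C, c.2.IsCycle) ∧
      ∀ u v, tot C u v = ind ((f u v + g u v + h u v) / 2 = 1) := by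
    refine mk (fun u v => (f u v + g u v + h u v) / 2) ?_ ?_ ?_ ?_
    · intro u v
      have k1 := f1 u v; have k2 := g1 u v; have k3 := h1 u v; have k := key u v
      omega
    · intro u v
      have k := key u v
      omega
    · intro u v hne
      beta_reduce at hne
      rcases key u v with k | k
      · omega
      · exact k.2.1
    · intro u
      refine sumz 1 1 1 (fun u v => (f u v + g u v + h u v) / 2) u (fun v => ?_)
      have k := key u v
      omega
  obtain ⟨C2, c2, t2⟩ : ∃ C : List (Σ v : V, G.Walk v v), (∀ c ∈ C, c.2.IsCycle) ∧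
      ∀ u v, tot C u v = ind ((f u v - g u v - h u v) / 2 = 1) := by
    refine mk (fun u v => (f u v - g u v - h u v) / 2) ?_ ?_ ?_ ?_
    · intro u v
      have k1 := f1 u v; have k2 := g1 u v; have k3 := h1 u v; have k := key u v
      omega
    · intro u v
      have k := key u v
      omega
    · intro u v hne
      beta_reduce at hne
      rcases key u v with k | k
      · omega
      · exact k.2.1
    · intro u
      refine sumz 1 (-1) (-1) (fun u v => (f u v - g u v - h u v) / 2) u (fun v => ?_)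
      have k := key u v
      omega
  obtain ⟨C3, c3, t3⟩ : ∃ C : List (Σ v : V, G.Walk v v), (∀ c ∈ C, c.2.IsCycle) ∧
      ∀ u v, tot C u v = ind ((g u v - f u v - h u v) / 2 = 1) := by
    refine mk (fun u v => (g u v - f u v - h u v) / 2) ?_ ?_ ?_ ?_
    · intro u v
      have k1 := f1 u v; have k2 := g1 u v; have k3 := h1 u v; have k := key u v
      omega
    · intro u v
      have k := key u v
      omega
    · intro u v hne
      beta_reduce at hne
      rcases key u v with k | k
      · omega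
      · exact k.2.1
    · intro u
      refine sumz (-1) 1 (-1) (fun u v => (g u v - f u v - h u v) / 2) u (fun v => ?_)
      have k := key u v
      omega
  obtain ⟨C4, c4, t4⟩ : ∃ C : List (Σ v : V, G.Walk v v), (∀ c ∈ C, c.2.IsCycle) ∧
      ∀ u v, tot C u v = ind ((h u v - f u v - g u v) / 2 = 1) := by
    refine mk (fun u v => (h u v - f u v - g u v) / 2) ?_ ?_ ?_ ?_
    · intro u v
      have k1 := f1 u v; have k2 := g1 u v; have k3 := h1 u v; have k := key u v
      omega
    · intro u v
      have k := key u v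
      omega
    · intro u v hne
      beta_reduce at hne
      rcases key u v with k | k
      · omega
      · exact k.2.1
    · intro u
      refine sumz (-1) (-1) 1 (fun u v => (h u v - f u v - g u v) / 2) u (fun v => ?_)
      have k := key u v
      omega
  refine ⟨C1 ++ C2 ++ (C3 ++ C4), ?_, ?_⟩
  · intro x hx
    simp only [List.mem_append] at hx
    rcases hx with (hx | hx) | (hx | hx)
    · exact c1 x hx
    · exact c2 x hx
    · exact c3 x hx
    · exact c4 x hx
  · intro u v
    rw [tot_append, tot_append, tot_append, t1, t2, t3, t4]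
    rcases key u v with ⟨k0, k⟩ | ⟨k0, _, k⟩
    · rw [ind_neg k0, ind_neg (by omega), ind_neg (by omega), ind_neg (by omega),
        ind_neg (by omega)]
    · rw [ind_pos k0]
      clear k0
      unfold ind
      split_ifs <;> omega

end Pool.Agent.X270.OCay
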