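import Pool.Agent.X270.OCay

set_option autoImplicit false

/-!
Oriented cycle double covers of Cayley graphs.
-/

namespace Pool.Agent.X270.OCay

open Finset Pool.Agent.TH505.OCDC

variable {V : Type} [Fintype V] {G : SimpleGraph V} {H : Type} [Group H] [Fintype H]

/-- the arcs `(g, g x)` -/
def arcs (e : H ≃ V) (x : H) (u v : V) : Prop := ∃ g, (e g, e (g * x)) = (u, v)

omit [Fintype V] [Fintype H] in
lemma arcs_inj {e : H ≃ V} {x y : H} {u v : V} (h1 : arcs e x u v) (h2 : arcs e y u v) :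
    x = y := by
  obtain ⟨g, hg⟩ := h1
  obtain ⟨h, hh⟩ := h2
  rw [Prod.mk.injEq] at hg hh
  have : g = h := e.injective (hg.1.trans hh.1.symm)
  subst this
  exact mul_left_cancel (e.injective (hg.2.trans hh.2.symm))

/-- arcs of a non-involution -/
lemma part1 (e : H ≃ V) (x : H) (hx : ∀ g, G.Adj (e g) (e (g * x))) (hx2 : x * x ≠ 1) :
    Cov G (arcs e x) := by
  refine cov_J (J := H) (fun g => (e g, e (g * x))) ?_ (fun g => g * x) ?_ ?_ ?_ ?_
  · intro g h hgh
    exact e.injective (Prod.mk.injEq _ _ _ _ ▸ hgh).1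
  · intro g h hgh
    exact mul_right_cancel hgh
  · intro g; rfl
  · intro g; exact hx g
  · intro g h hh
    rw [Prod.swap_prod_mk, Prod.mk.injEq] at hh
    have h1 := e.injective hh.1
    have h2 := e.injective hh.2
    rw [h1, mul_assoc, mul_eq_left] at h2
    exact hx2 h2

/-- arcs of two connection elements -/
lemma part2 (e : H ≃ V) (x y : H) (hx : ∀ g, G.Adj (e g) (e (g * x)))
    (hy : ∀ g, G.Adj (e g) (e (g * y))) (hxy : x ≠ y) (hxy1 : x * y ≠ 1)
    (hq : x ∉ Subgroup.zpowers (x * y)) :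
    Cov G (fun u v => arcs e x u v ∨ arcs e y u v) := by
  have hdis : ∀ g h, (e g, e (g * x)) ≠ (e h, e (h * y)) := by
    intro g h hh
    rw [Prod.mk.injEq] at hh
    have h1 := e.injective hh.1
    subst h1
    exact hxy (mul_left_cancel (e.injective hh.2))
  refine (cov_label (J := H × Bool) (Λ := H ⧸ Subgroup.zpowers (x * y))
    (fun j => if j.2 then (e j.1, e (j.1 * y)) else (e j.1, e (j.1 * x))) ?_
    (fun j => if j.2 then (j.1 * y, false) else (j.1 * x, true)) ?_ ?_ ?_
    (fun j => if j.2 then ((j.1 * x⁻¹ : H) : H ⧸ Subgroup.zpowers (x * y))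
      else ((j.1 : H) : H ⧸ Subgroup.zpowers (x * y))) ?_ ?_).congr ?_
  · rintro ⟨g, _ | _⟩ ⟨h, _ | _⟩ hgh
    · simp only [Bool.false_eq_true, if_false, Prod.mk.injEq] at hgh ⊢
      exact ⟨e.injective hgh.1, trivial⟩
    · simp only [Bool.false_eq_true, if_false, if_true] at hgh
      exact absurd hgh (hdis _ _)
    · simp only [Bool.false_eq_true, if_false, if_true] at hgh
      exact absurd hgh.symm (hdis _ _)
    · simp only [if_true, Prod.mk.injEq] at hgh ⊢
      exact ⟨e.injective hgh.1, trivial⟩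
  · rintro ⟨g, _ | _⟩ ⟨h, _ | _⟩ hgh <;>
      simp only [Bool.false_eq_true, if_false, if_true, Prod.mk.injEq, and_true, and_false,
        reduceCtorEq, mul_left_inj] at hgh ⊢ <;> exact hgh
  · rintro ⟨g, _ | _⟩ <;> rfl
  · rintro ⟨g, _ | _⟩
    · exact hx g
    · exact hy g
  · rintro ⟨g, _ | _⟩
    · simp
    · simp only [if_true, Bool.false_eq_true, if_false]
      rw [eq_comm, QuotientGroup.eq]
      refine ⟨1, ?_⟩
      simp [mul_assoc]
  · rintro ⟨g, _ | _⟩ ⟨h, _ | _⟩ hgh hL
    · simp only [Bool.false_eq_true, if_false, Prod.swap_prod_mk, Prod.mk.injEq] at hgh hL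
      have h1 := e.injective hgh.1
      rw [QuotientGroup.eq, h1, inv_mul_cancel_left] at hL
      exact hq hL
    · simp only [Bool.false_eq_true, if_false, if_true, Prod.swap_prod_mk,
        Prod.mk.injEq] at hgh
      have h1 := e.injective hgh.1
      have h2 := e.injective hgh.2
      rw [h1, mul_assoc, mul_eq_left] at h2
      exact hxy1 h2
    · simp only [Bool.false_eq_true, if_false, if_true, Prod.swap_prod_mk,
        Prod.mk.injEq] at hgh
      have h1 := e.injective hgh.1
      have h2 := e.injective hgh.2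
      rw [h1, mul_assoc, mul_eq_left] at h2
      exact hxy1 (mul_eq_one_comm.1 h2)
    · simp only [if_true, Prod.swap_prod_mk, Prod.mk.injEq] at hgh hL
      have h1 := e.injective hgh.1
      rw [QuotientGroup.eq, h1] at hL
      have h3 : (g * x⁻¹)⁻¹ * (g * y * x⁻¹) = (x * y) * x⁻¹ := by group
      rw [h3] at hL
      have h4 := (Subgroup.mul_mem_cancel_left _ (Subgroup.mem_zpowers (x * y))).1 hL
      exact hq (by simpa using h4)
  · intro u v
    constructor
    · rintro ⟨⟨g, _ | _⟩, hg⟩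
      · exact Or.inl ⟨g, hg⟩
      · exact Or.inr ⟨g, hg⟩
    · rintro (⟨g, hg⟩ | ⟨g, hg⟩)
      · exact ⟨(g, false), hg⟩
      · exact ⟨(g, true), hg⟩

/-- two involutions -/
lemma part_inv2 (e : H ≃ V) (x y : H) (hx : ∀ g, G.Adj (e g) (e (g * x)))
    (hy : ∀ g, G.Adj (e g) (e (g * y))) (hxy : x ≠ y) (hx2 : x * x = 1) (hy2 : y * y = 1)
    (hx1 : x ≠ 1) (hy1 : y ≠ 1) :
    Cov G (fun u v => arcs e x u v ∨ arcs e y u v) := by
  refine part2 e x y hx hy hxy ?_ ?_
  · intro h
    exact hxy (mul_left_cancel (hx2.trans h.symm))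
  · intro h
    have hc : x * (x * y) = (x * y) * x := by
      obtain ⟨k, hk⟩ := h
      have hcc : Commute x (x * y) := by
        have : Commute ((x * y) ^ k) (x * y) := (Commute.refl _).zpow_left k
        rwa [show (x * y) ^ k = x from hk] at this
      exact hcc
    have hc2 : x * y = y * x := by
      rw [mul_assoc] at hc
      exact mul_left_cancel hc
    have hq2 : (x * y) ^ (2 : ℤ) = 1 := by
      rw [zpow_two, mul_assoc, ← mul_assoc y x y, ← hc2, mul_assoc x y y, hy2, mul_one, hx2]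
    obtain ⟨k, hk⟩ := h
    rcases Int.even_or_odd' k with ⟨j, rfl | rfl⟩
    · have : (x * y) ^ (2 * j) = 1 := by rw [zpow_mul, hq2, one_zpow]
      exact hx1 (by rw [← hk]; exact this)
    · have : (x * y) ^ (2 * j + 1) = x * y := by
        rw [zpow_add, zpow_mul, hq2, one_zpow, one_mul, zpow_one]
      have h5 : x * y = x := by rw [← this]; exact hk
      exact hy1 (mul_eq_left.1 h5)

omit [Fintype H] in
/-- three involutions -/
lemma part_inv3 (e : H ≃ V) (x y z : H) (hx : ∀ g, G.Adj (e g) (e (g * x)))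
    (hy : ∀ g, G.Adj (e g) (e (g * y))) (hz : ∀ g, G.Adj (e g) (e (g * z)))
    (hxy : x ≠ y) (hxz : x ≠ z) (hyz : y ≠ z)
    (hx2 : x * x = 1) (hy2 : y * y = 1) (hz2 : z * z = 1) :
    Cov G (fun u v => arcs e x u v ∨ arcs e y u v ∨ arcs e z u v) := by
  have inv : ∀ w : H, w * w = 1 → ∀ v, e (e.symm (e (e.symm v * w)) * w) = v := by
    intro w hw v
    rw [Equiv.symm_apply_apply, mul_assoc, hw, mul_one, Equiv.apply_symm_apply]
  have adj : ∀ w : H, (∀ g, G.Adj (e g) (e (g * w))) → ∀ v, G.Adj v (e (e.symm v * w)) := by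
    intro w hw v
    have := hw (e.symm v)
    rwa [Equiv.apply_symm_apply] at this
  have ne : ∀ w w' : H, w ≠ w' → ∀ v, e (e.symm v * w) ≠ e (e.symm v * w') := by
    intro w w' hw v h
    exact hw (mul_left_cancel (e.injective h))
  have eqv : ∀ w u v, e (e.symm u * w) = v ↔ arcs e w u v := by
    intro w u v
    constructor
    · intro h
      exact ⟨e.symm u, by rw [h, Equiv.apply_symm_apply]⟩
    · rintro ⟨g, hg⟩
      rw [Prod.mk.injEq] at hg
      rw [← hg.1, Equiv.symm_apply_apply, hg.2]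
  refine (cov_tait (G := G) (fun v => e (e.symm v * x)) (fun v => e (e.symm v * y))
    (fun v => e (e.symm v * z)) (inv x hx2) (inv y hy2) (inv z hz2) (adj x hx) (adj y hy)
    (adj z hz) (ne x y hxy) (ne x z hxz) (ne y z hyz)).congr ?_
  intro u v
  rw [eqv, eqv, eqv]

/-- choice of a side -/
lemma side (K : Subgroup H) (y : H) (hy : y ∉ K) (hy2 : y * y ∈ K) :
    ∃ σ : H → Prop, (∀ g, ∀ k ∈ K, y⁻¹ * k * y ∈ K → (σ (g * k) ↔ σ g)) ∧
      ∀ g, σ (g * y) ↔ ¬ σ g := by
  classical
  let code := Fintype.equivFin (H ⧸ K)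
  refine ⟨fun g => code (g : H ⧸ K) < code ((g * y : H) : H ⧸ K), ?_, ?_⟩
  · intro g k hk hk2
    have h1 : ((g * k : H) : H ⧸ K) = (g : H ⧸ K) := by
      rw [eq_comm, QuotientGroup.eq]; simpa using hk
    have h2 : ((g * k * y : H) : H ⧸ K) = ((g * y : H) : H ⧸ K) := by
      rw [eq_comm, QuotientGroup.eq]
      have : (g * y)⁻¹ * (g * k * y) = y⁻¹ * k * y := by group
      rw [this]; exact hk2
    simp only [h1, h2]
  · intro g
    have h1 : ((g * y * y : H) : H ⧸ K) = (g : H ⧸ K) := by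
      rw [eq_comm, QuotientGroup.eq]; simpa [mul_assoc] using hy2
    have h2 : (g : H ⧸ K) ≠ ((g * y : H) : H ⧸ K) := by
      rw [Ne, QuotientGroup.eq]; simpa using hy
    have h3 : code (g : H ⧸ K) ≠ code ((g * y : H) : H ⧸ K) := fun h => h2 (code.injective h)
    simp only [h1]
    constructor
    · intro h; exact not_lt.2 h.le
    · intro h; exact lt_of_le_of_ne (not_lt.1 h) h3.symm

end Pool.Agent.X270.OCay
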