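import Pool.Agent.X270.OCay2

set_option autoImplicit false

namespace Pool.Agent.X270.OCay

open Finset Pool.Agent.TH505.OCDC

variable {V : Type} [Fintype V] {G : SimpleGraph V} {H : Type} [Group H] [Fintype H]

/-- prism: commuting `s` and `t` with `t` outside the cyclic group of `s` -/
lemma part_prism (e : H ≃ V) (s t : H) (hs : ∀ g, G.Adj (e g) (e (g * s)))
    (hs' : ∀ g, G.Adj (e g) (e (g * s⁻¹)))
    (ht : ∀ g, G.Adj (e g) (e (g * t))) (hs2 : s * s ≠ 1) (ht2 : t * t = 1)
    (hst : s * t = t * s) (hts : t ∉ Subgroup.zpowers s) :
    Cov G (fun u v => arcs e s u v ∨ arcs e s⁻¹ u v ∨ arcs e t u v) := by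
  classical
  have hs1 : s ≠ 1 := fun h => hs2 (by rw [h, mul_one])
  have hsi : s⁻¹ * s⁻¹ ≠ 1 := by
    intro h
    apply hs2
    have := congrArg (fun z => z⁻¹) h
    simpa using this
  have hsit : s⁻¹ ≠ t := by
    intro h
    rw [← h] at ht2
    exact hsi ht2
  have hst' : s ≠ t := by
    intro h
    rw [← h] at ht2
    exact hs2 ht2
  obtain ⟨σ, hσ1, hσ2⟩ := side (Subgroup.zpowers s) t hts (by rw [ht2]; exact Subgroup.one_mem _)
  have hcon : ∀ k : H, s * k = k * s → t⁻¹ * s * t = s := by
    intro _ _
    rw [mul_assoc, hst, inv_mul_cancel_left]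
  have hcs : t⁻¹ * s * t = s := by
    rw [mul_assoc, hst, inv_mul_cancel_left]
  have hcs' : t⁻¹ * s⁻¹ * t = s⁻¹ := by
    have := congrArg (fun z => z⁻¹) hcs
    simpa [mul_assoc] using this
  have σs : ∀ g, σ (g * s) ↔ σ g := fun g => hσ1 g s (Subgroup.mem_zpowers s)
    (by rw [hcs]; exact Subgroup.mem_zpowers s)
  have σs' : ∀ g, σ (g * s⁻¹) ↔ σ g := fun g => hσ1 g s⁻¹
    (Subgroup.inv_mem _ (Subgroup.mem_zpowers s))
    (by rw [hcs']; exact Subgroup.inv_mem _ (Subgroup.mem_zpowers s))
  have htt : ∀ g, g * t * t = g := fun g => by rw [mul_assoc, ht2, mul_one]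
  -- the rims
  have c1 : Cov G (fun u v => ∃ g, (if σ g then (e g, e (g * s)) else (e g, e (g * s⁻¹))) = (u, v)) := by
    refine cov_J (J := H) (fun g => if σ g then (e g, e (g * s)) else (e g, e (g * s⁻¹))) ?_
      (fun g => if σ g then g * s else g * s⁻¹) ?_ ?_ ?_ ?_
    · intro g h hgh
      have h1 : ((fun g => if σ g then (e g, e (g * s)) else (e g, e (g * s⁻¹))) g).1 =
        ((fun g => if σ g then (e g, e (g * s)) else (e g, e (g * s⁻¹))) h).1 := by rw [hgh]
      have h2 : ∀ g, ((fun g => if σ g then (e g, e (g * s)) else (e g, e (g * s⁻¹))) g).1 =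
        e g := by intro g; beta_reduce; split_ifs <;> rfl
      rw [h2, h2] at h1
      exact e.injective h1
    · intro g h hgh
      beta_reduce at hgh
      by_cases hg : σ g <;> by_cases hh : σ h
      · rw [if_pos hg, if_pos hh] at hgh; exact mul_right_cancel hgh
      · rw [if_pos hg, if_neg hh] at hgh
        exact absurd ((σs' h).1 (hgh ▸ (σs g).2 hg)) hh
      · rw [if_neg hg, if_pos hh] at hgh
        exact absurd ((σs' g).1 (hgh ▸ (σs h).2 hh)) hg
      · rw [if_neg hg, if_neg hh] at hgh; exact mul_right_cancel hgh
    · intro g
      by_cases hg : σ g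
      · simp only [if_pos hg, if_pos ((σs g).2 hg)]
      · simp only [if_neg hg, if_neg (fun h => hg ((σs' g).1 h))]
    · intro g
      by_cases hg : σ g
      · simp only [if_pos hg]; exact hs g
      · simp only [if_neg hg]; exact hs' g
    · intro g h hh
      by_cases hg : σ g
      · simp only [if_pos hg, Prod.swap_prod_mk] at hh
        by_cases hk : σ h
        · rw [if_pos hk, Prod.mk.injEq] at hh
          have h1 := e.injective hh.1
          have h2 := e.injective hh.2
          rw [h1, mul_assoc, mul_eq_left] at h2
          exact hs2 h2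
        · rw [if_neg hk, Prod.mk.injEq] at hh
          have h1 := e.injective hh.1
          exact hk (h1 ▸ (σs g).2 hg)
      · simp only [if_neg hg, Prod.swap_prod_mk] at hh
        by_cases hk : σ h
        · rw [if_pos hk, Prod.mk.injEq] at hh
          have h1 := e.injective hh.1
          exact hg ((σs' g).1 (h1 ▸ hk))
        · rw [if_neg hk, Prod.mk.injEq] at hh
          have h1 := e.injective hh.1
          have h2 := e.injective hh.2
          rw [h1, mul_assoc, mul_eq_left] at h2
          exact hsi h2
  -- the rungs
  have c2 : Cov G (fun u v => ∃ j : H × Bool, (if j.2 then (e j.1, e (j.1 * t)) else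
      (if σ j.1 then (e j.1, e (j.1 * s⁻¹)) else (e j.1, e (j.1 * s)))) = (u, v)) := by
    refine cov_label (J := H × Bool) (Λ := H) (fun j => if j.2 then (e j.1, e (j.1 * t)) else
      (if σ j.1 then (e j.1, e (j.1 * s⁻¹)) else (e j.1, e (j.1 * s)))) ?_
      (fun j => if j.2 then (j.1 * t, false) else
        (if σ j.1 then (j.1 * s⁻¹, true) else (j.1 * s, true))) ?_ ?_ ?_
      (fun j => if j.2 then (if σ j.1 then j.1 * s else j.1 * t) else
        (if σ j.1 then j.1 else j.1 * t * s)) ?_ ?_
    · rintro ⟨g, _ | _⟩ ⟨h, _ | _⟩ hgh
      · simp only [Bool.false_eq_true, if_false, Prod.mk.injEq, and_true] at hgh ⊢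
        by_cases hg : σ g <;> by_cases hh : σ h
        · simp only [if_pos hg, if_pos hh, Prod.mk.injEq] at hgh; exact e.injective hgh.1
        · simp only [if_pos hg, if_neg hh, Prod.mk.injEq] at hgh; exact e.injective hgh.1
        · simp only [if_neg hg, if_pos hh, Prod.mk.injEq] at hgh; exact e.injective hgh.1
        · simp only [if_neg hg, if_neg hh, Prod.mk.injEq] at hgh; exact e.injective hgh.1
      · simp only [Bool.false_eq_true, if_false, if_true] at hgh
        exfalso
        by_cases hg : σ g
        · simp only [if_pos hg, Prod.mk.injEq] at hgh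
          have h1 := e.injective hgh.1
          have h2 := e.injective hgh.2
          rw [h1] at h2
          exact hsit (mul_left_cancel h2)
        · simp only [if_neg hg, Prod.mk.injEq] at hgh
          have h1 := e.injective hgh.1
          have h2 := e.injective hgh.2
          rw [h1] at h2
          exact hst' (mul_left_cancel h2)
      · simp only [Bool.false_eq_true, if_false, if_true] at hgh
        exfalso
        by_cases hh : σ h
        · simp only [if_pos hh, Prod.mk.injEq] at hgh
          have h1 := e.injective hgh.1
          have h2 := e.injective hgh.2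
          rw [h1] at h2
          exact hsit (mul_left_cancel h2).symm
        · simp only [if_neg hh, Prod.mk.injEq] at hgh
          have h1 := e.injective hgh.1
          have h2 := e.injective hgh.2
          rw [h1] at h2
          exact hst' (mul_left_cancel h2).symm
      · simp only [if_true, Prod.mk.injEq] at hgh ⊢
        exact ⟨e.injective hgh.1, trivial⟩
    · rintro ⟨g, _ | _⟩ ⟨h, _ | _⟩ hgh
      · simp only [Bool.false_eq_true, if_false, Prod.mk.injEq, and_true] at hgh ⊢
        by_cases hg : σ g <;> by_cases hh : σ h
        · simp only [if_pos hg, if_pos hh, Prod.mk.injEq, and_true] at hgh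
          exact mul_right_cancel hgh
        · simp only [if_pos hg, if_neg hh, Prod.mk.injEq, and_true] at hgh
          exact absurd ((σs h).1 (hgh ▸ (σs' g).2 hg)) hh
        · simp only [if_neg hg, if_pos hh, Prod.mk.injEq, and_true] at hgh
          exact absurd ((σs g).1 (hgh ▸ (σs' h).2 hh)) hg
        · simp only [if_neg hg, if_neg hh, Prod.mk.injEq, and_true] at hgh
          exact mul_right_cancel hgh
      · exfalso
        by_cases hg : σ g
        · simp only [Bool.false_eq_true, if_false, if_true, if_pos hg, Prod.mk.injEq,
            reduceCtorEq, and_false] at hgh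
        · simp only [Bool.false_eq_true, if_false, if_true, if_neg hg, Prod.mk.injEq,
            reduceCtorEq, and_false] at hgh
      · exfalso
        by_cases hg : σ h
        · simp only [Bool.false_eq_true, if_false, if_true, if_pos hg, Prod.mk.injEq,
            reduceCtorEq, and_false] at hgh
        · simp only [Bool.false_eq_true, if_false, if_true, if_neg hg, Prod.mk.injEq,
            reduceCtorEq, and_false] at hgh
      · simp only [if_true, Prod.mk.injEq, and_true] at hgh ⊢
        exact mul_right_cancel hgh
    · rintro ⟨g, _ | _⟩
      · by_cases hg : σ g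
        · simp only [Bool.false_eq_true, if_false, if_pos hg, if_true]
        · simp only [Bool.false_eq_true, if_false, if_neg hg, if_true]
      · by_cases hg : σ (g * t)
        · simp only [Bool.false_eq_true, if_false, if_pos hg, if_true]
        · simp only [Bool.false_eq_true, if_false, if_neg hg, if_true]
    · rintro ⟨g, _ | _⟩
      · by_cases hg : σ g
        · simp only [Bool.false_eq_true, if_false, if_pos hg]; exact hs' g
        · simp only [Bool.false_eq_true, if_false, if_neg hg]; exact hs g
      · exact ht g
    · rintro ⟨g, _ | _⟩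
      · by_cases hg : σ g
        · simp only [Bool.false_eq_true, if_false, if_pos hg, if_true, if_pos ((σs' g).2 hg),
            inv_mul_cancel_right]
        · simp only [Bool.false_eq_true, if_false, if_neg hg, if_true,
            if_neg (fun h => hg ((σs g).1 h))]
          rw [mul_assoc, mul_assoc, hst]
      · by_cases hg : σ g
        · simp only [Bool.false_eq_true, if_false, if_pos hg, if_true,
            if_neg (fun h => (hσ2 g).1 h hg), htt]
        · simp only [Bool.false_eq_true, if_false, if_neg hg, if_true, if_pos ((hσ2 g).2 hg)]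
    · rintro ⟨g, _ | _⟩ ⟨h, _ | _⟩ hgh
      · exfalso
        simp only [Bool.false_eq_true, if_false] at hgh
        by_cases hg : σ g <;> by_cases hh : σ h
        · simp only [if_pos hg, if_pos hh, Prod.swap_prod_mk, Prod.mk.injEq] at hgh
          have h1 := e.injective hgh.1
          have h2 := e.injective hgh.2
          rw [h1, mul_assoc, mul_eq_left] at h2
          exact hsi h2
        · simp only [if_pos hg, if_neg hh, Prod.swap_prod_mk, Prod.mk.injEq] at hgh
          have h1 := e.injective hgh.1
          exact hh (h1 ▸ (σs' g).2 hg)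
        · simp only [if_neg hg, if_pos hh, Prod.swap_prod_mk, Prod.mk.injEq] at hgh
          have h1 := e.injective hgh.1
          exact hg ((σs g).1 (h1 ▸ hh))
        · simp only [if_neg hg, if_neg hh, Prod.swap_prod_mk, Prod.mk.injEq] at hgh
          have h1 := e.injective hgh.1
          have h2 := e.injective hgh.2
          rw [h1, mul_assoc, mul_eq_left] at h2
          exact hs2 h2
      · exfalso
        simp only [Bool.false_eq_true, if_false, if_true] at hgh
        by_cases hg : σ g
        · simp only [if_pos hg, Prod.swap_prod_mk, Prod.mk.injEq] at hgh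
          have h1 := e.injective hgh.1
          have h2 := e.injective hgh.2
          rw [h1, mul_assoc, mul_eq_left, inv_mul_eq_one] at h2
          exact hst' h2
        · simp only [if_neg hg, Prod.swap_prod_mk, Prod.mk.injEq] at hgh
          have h1 := e.injective hgh.1
          have h2 := e.injective hgh.2
          rw [h1, mul_assoc, mul_eq_left] at h2
          exact hsit (inv_eq_of_mul_eq_one_right h2)
      · exfalso
        simp only [Bool.false_eq_true, if_false, if_true, Prod.swap_prod_mk] at hgh
        by_cases hh : σ h
        · simp only [if_pos hh, Prod.mk.injEq] at hgh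
          have h1 := e.injective hgh.1
          have h2 := e.injective hgh.2
          rw [h1, mul_assoc, mul_eq_left, mul_inv_eq_one] at h2
          exact hst' h2.symm
        · simp only [if_neg hh, Prod.mk.injEq] at hgh
          have h1 := e.injective hgh.1
          have h2 := e.injective hgh.2
          rw [h1, mul_assoc, mul_eq_left, mul_eq_one_iff_eq_inv] at h2
          exact hsit h2.symm
      · simp only [if_true, Prod.swap_prod_mk, Prod.mk.injEq] at hgh ⊢
        have h1 := e.injective hgh.1
        subst h1
        by_cases hg : σ g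
        · simp only [if_pos hg, if_neg (fun h => (hσ2 g).1 h hg), htt]
          intro h; exact hs1 (mul_eq_left.1 h)
        · simp only [if_neg hg, if_pos ((hσ2 g).2 hg)]
          intro h; exact hs1 (mul_eq_left.1 h.symm)
  refine (c1.union c2 ?_).congr ?_
  · rintro u v ⟨g, hg⟩ ⟨⟨h, _ | _⟩, hh⟩
    · simp only [Bool.false_eq_true, if_false] at hh
      have key : g = h := by
        by_cases k1 : σ g <;> by_cases k2 : σ h <;>
          simp only [k1, k2, if_true, if_false, Prod.mk.injEq] at hg hh <;>
          exact e.injective (hg.1.trans hh.1.symm)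
      subst key
      by_cases k1 : σ g
      · simp only [k1, if_true, Prod.mk.injEq] at hg hh
        have h2 := mul_left_cancel (e.injective (hg.2.trans hh.2.symm))
        apply hs2
        nth_rewrite 1 [h2]
        exact inv_mul_cancel s
      · simp only [k1, if_false, Prod.mk.injEq] at hg hh
        have h2 := mul_left_cancel (e.injective (hg.2.trans hh.2.symm))
        apply hs2
        nth_rewrite 1 [← h2]
        exact inv_mul_cancel s
    · simp only [if_true] at hh
      have key : g = h := by
        by_cases k1 : σ g <;>
          simp only [k1, if_true, if_false, Prod.mk.injEq] at hg hh <;>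
          exact e.injective (hg.1.trans hh.1.symm)
      subst key
      by_cases k1 : σ g
      · simp only [k1, if_true, Prod.mk.injEq] at hg hh
        exact hst' (mul_left_cancel (e.injective (hg.2.trans hh.2.symm)))
      · simp only [k1, if_false, Prod.mk.injEq] at hg hh
        exact hsit (mul_left_cancel (e.injective (hg.2.trans hh.2.symm)))
  · intro u v
    constructor
    · rintro (⟨g, hg⟩ | ⟨⟨g, _ | _⟩, hg⟩)
      · by_cases k1 : σ g
        · simp only [k1, if_true] at hg; exact Or.inl ⟨g, hg⟩
        · simp only [k1, if_false] at hg; exact Or.inr (Or.inl ⟨g, hg⟩)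
      · by_cases k1 : σ g
        · simp only [k1, if_true, Bool.false_eq_true, if_false] at hg
          exact Or.inr (Or.inl ⟨g, hg⟩)
        · simp only [k1, if_false, Bool.false_eq_true] at hg; exact Or.inl ⟨g, hg⟩
      · exact Or.inr (Or.inr ⟨g, hg⟩)
    · rintro (⟨g, hg⟩ | ⟨g, hg⟩ | ⟨g, hg⟩)
      · by_cases k1 : σ g
        · exact Or.inl ⟨g, by simp only [k1, if_true]; exact hg⟩
        · exact Or.inr ⟨(g, false), by simp only [k1, if_false, Bool.false_eq_true]; exact hg⟩
      · by_cases k1 : σ g
        · exact Or.inr ⟨(g, false), by
            simp only [k1, if_true, Bool.false_eq_true, if_false]; exact hg⟩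
        · exact Or.inl ⟨g, by simp only [k1, if_false]; exact hg⟩
      · exact Or.inr ⟨(g, true), hg⟩

end Pool.Agent.X270.OCay
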