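import Pool.Agent.X270.OCay3

set_option autoImplicit false

namespace Pool.Agent.X270.OCay

open Finset Pool.Agent.TH505.OCDC

variable {V : Type} [Fintype V] {G : SimpleGraph V} {H : Type} [Group H] [Fintype H]

/-- Möbius ladder: `t` a power of `s` -/
lemma part_mobius (e : H ≃ V) (s t : H) (hs : ∀ g, G.Adj (e g) (e (g * s)))
    (hs' : ∀ g, G.Adj (e g) (e (g * s⁻¹)))
    (ht : ∀ g, G.Adj (e g) (e (g * t))) (hs2 : s * s ≠ 1) (ht2 : t * t = 1) (ht1 : t ≠ 1)
    (hts : t ∈ Subgroup.zpowers s) :
    Cov G (fun u v => arcs e s u v ∨ arcs e s⁻¹ u v ∨ arcs e t u v) := by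
  classical
  have hsi : s⁻¹ * s⁻¹ ≠ 1 := by
    intro h
    apply hs2
    have := congrArg (fun z => z⁻¹) h
    simpa using this
  have hsit : s⁻¹ ≠ t := by
    intro h
    rw [← h] at ht2
    exact hsi ht2
  have hst' : s ≠ t := by
    intro h
    rw [← h] at ht2
    exact hs2 ht2
  have hss : s ≠ s⁻¹ := fun h => hs2 (by nth_rewrite 2 [h]; exact mul_inv_cancel s)
  have hK : s ∉ Subgroup.zpowers (s * s) := by
    rintro ⟨k, hk⟩
    obtain ⟨j, hj⟩ := hts
    apply ht1
    have hk' : s ^ (2 * k) = s := by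
      have : (s * s) ^ k = s ^ (2 * k) := by rw [zpow_mul, zpow_two]
      rw [← this]; exact hk
    have hj' : s ^ j = t := hj
    have h3 : s ^ (2 * j) = 1 := by rw [two_mul, zpow_add, hj', ht2]
    calc t = s ^ j := hj'.symm
      _ = (s ^ (2 * k)) ^ j := by rw [hk']
      _ = (s ^ (2 * j)) ^ k := by rw [← zpow_mul, ← zpow_mul]; congr 1; ring
      _ = 1 := by rw [h3, one_zpow]
  obtain ⟨σ, -, hσ2⟩ := side (Subgroup.zpowers (s * s)) s hK (Subgroup.mem_zpowers _)
  have hσ3 : ∀ g, σ (g * s⁻¹) ↔ ¬ σ g := by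
    intro g
    have := hσ2 (g * s⁻¹)
    rw [inv_mul_cancel_right] at this
    tauto
  refine (cov_tait (G := G)
    (fun v => e (if σ (e.symm v) then e.symm v * s else e.symm v * s⁻¹))
    (fun v => e (if σ (e.symm v) then e.symm v * s⁻¹ else e.symm v * s))
    (fun v => e (e.symm v * t)) ?_ ?_ ?_ ?_ ?_ ?_ ?_ ?_ ?_).congr ?_
  · intro v
    obtain ⟨g, rfl⟩ := e.surjective v
    simp only [Equiv.symm_apply_apply]
    by_cases hg : σ g
    · rw [if_pos hg, if_neg (fun h => (hσ2 g).1 h hg), mul_inv_cancel_right]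
    · rw [if_neg hg, if_pos ((hσ3 g).2 hg), inv_mul_cancel_right]
  · intro v
    obtain ⟨g, rfl⟩ := e.surjective v
    simp only [Equiv.symm_apply_apply]
    by_cases hg : σ g
    · rw [if_pos hg, if_neg (fun h => (hσ3 g).1 h hg), inv_mul_cancel_right]
    · rw [if_neg hg, if_pos ((hσ2 g).2 hg), mul_inv_cancel_right]
  · intro v
    obtain ⟨g, rfl⟩ := e.surjective v
    simp only [Equiv.symm_apply_apply]
    rw [mul_assoc, ht2, mul_one]
  · intro v
    obtain ⟨g, rfl⟩ := e.surjective v
    simp only [Equiv.symm_apply_apply]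
    by_cases hg : σ g
    · rw [if_pos hg]; exact hs g
    · rw [if_neg hg]; exact hs' g
  · intro v
    obtain ⟨g, rfl⟩ := e.surjective v
    simp only [Equiv.symm_apply_apply]
    by_cases hg : σ g
    · rw [if_pos hg]; exact hs' g
    · rw [if_neg hg]; exact hs g
  · intro v
    obtain ⟨g, rfl⟩ := e.surjective v
    simp only [Equiv.symm_apply_apply]
    exact ht g
  · intro v
    obtain ⟨g, rfl⟩ := e.surjective v
    simp only [Equiv.symm_apply_apply]
    by_cases hg : σ g
    · rw [if_pos hg, if_pos hg]; intro h; exact hss (mul_left_cancel (e.injective h))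
    · rw [if_neg hg, if_neg hg]; intro h; exact hss (mul_left_cancel (e.injective h)).symm
  · intro v
    obtain ⟨g, rfl⟩ := e.surjective v
    simp only [Equiv.symm_apply_apply]
    by_cases hg : σ g
    · rw [if_pos hg]; intro h; exact hst' (mul_left_cancel (e.injective h))
    · rw [if_neg hg]; intro h; exact hsit (mul_left_cancel (e.injective h))
  · intro v
    obtain ⟨g, rfl⟩ := e.surjective v
    simp only [Equiv.symm_apply_apply]
    by_cases hg : σ g
    · rw [if_pos hg]; intro h; exact hsit (mul_left_cancel (e.injective h))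
    · rw [if_neg hg]; intro h; exact hst' (mul_left_cancel (e.injective h))
  · intro u v
    obtain ⟨g, rfl⟩ := e.surjective u
    simp only [Equiv.symm_apply_apply]
    have eqv : ∀ w, e (g * w) = v ↔ arcs e w (e g) v := by
      intro w
      constructor
      · intro h
        exact ⟨g, by rw [h]⟩
      · rintro ⟨g', hg⟩
        rw [Prod.mk.injEq] at hg
        rw [← e.injective hg.1, hg.2]
    by_cases hg : σ g
    · rw [if_pos hg, if_pos hg, eqv, eqv, eqv]
    · rw [if_neg hg, if_neg hg, eqv, eqv, eqv]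
      tauto

/-- an element of order at least three together with an involution -/
lemma part3 (e : H ≃ V) (s t : H) (hs : ∀ g, G.Adj (e g) (e (g * s)))
    (hs' : ∀ g, G.Adj (e g) (e (g * s⁻¹)))
    (ht : ∀ g, G.Adj (e g) (e (g * t))) (hs2 : s * s ≠ 1) (ht2 : t * t = 1) (ht1 : t ≠ 1) :
    Cov G (fun u v => arcs e s u v ∨ arcs e s⁻¹ u v ∨ arcs e t u v) := by
  have hsi : s⁻¹ * s⁻¹ ≠ 1 := by
    intro h
    apply hs2
    have := congrArg (fun z => z⁻¹) h
    simpa using this
  by_cases hst : s * t = t * s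
  · by_cases hts : t ∈ Subgroup.zpowers s
    · exact part_mobius e s t hs hs' ht hs2 ht2 ht1 hts
    · exact part_prism e s t hs hs' ht hs2 ht2 hst hts
  · have hst' : s ≠ t := by rintro rfl; exact hst rfl
    have hsit : s⁻¹ ≠ t := by rintro rfl; exact hst (by simp)
    have h1 : Cov G (fun u v => arcs e s u v ∨ arcs e t u v) := by
      refine part2 e s t hs ht hst' ?_ ?_
      · intro h
        exact hsit (inv_eq_of_mul_eq_one_right h)
      · rintro ⟨k, hk⟩
        have hcc : Commute s (s * t) := by
          have : Commute ((s * t) ^ k) (s * t) := (Commute.refl _).zpow_left k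
          rwa [show (s * t) ^ k = s from hk] at this
        have h2 : s * (s * t) = s * t * s := hcc
        rw [mul_assoc] at h2
        exact hst (mul_left_cancel h2)
    refine (h1.union (part1 e s⁻¹ hs' hsi) ?_).congr ?_
    · rintro u v (h | h) h'
      · have := arcs_inj h h'
        exact hs2 (by nth_rewrite 2 [this]; exact mul_inv_cancel s)
      · exact hsit (arcs_inj h' h)
    · intro u v
      tauto

/-- the arcs coming from a set of connection elements -/
def arcsS (e : H ≃ V) (T : Finset H) (u v : V) : Prop := ∃ x ∈ T, arcs e x u v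

omit [Fintype V] [Fintype H] in
lemma covS_union [DecidableEq H] (e : H ≃ V) {S T : Finset H} (hST : Disjoint S T)
    (hS : Cov G (arcsS e S)) (hT : Cov G (arcsS e T)) : Cov G (arcsS e (S ∪ T)) := by
  refine (hS.union hT ?_).congr ?_
  · rintro u v ⟨x, hx, h1⟩ ⟨y, hy, h2⟩
    have := arcs_inj h1 h2
    subst this
    exact Finset.disjoint_left.1 hST hx hy
  · intro u v
    unfold arcsS
    simp only [Finset.mem_union]
    constructor
    · rintro (⟨x, hx, h⟩ | ⟨x, hx, h⟩)
      · exact ⟨x, Or.inl hx, h⟩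
      · exact ⟨x, Or.inr hx, h⟩
    · rintro ⟨x, hx | hx, h⟩
      · exact Or.inl ⟨x, hx, h⟩
      · exact Or.inr ⟨x, hx, h⟩

/-- sets of elements of order at least three -/
lemma covS_nonInv (e : H ≃ V) (T : Finset H) (hadj : ∀ x ∈ T, ∀ g, G.Adj (e g) (e (g * x)))
    (hT : ∀ x ∈ T, x * x ≠ 1) : Cov G (arcsS e T) := by
  refine cov_union_finset T (arcs e) (fun x hx => part1 e x (hadj x hx) (hT x hx)) ?_
  intro x _ y _ u v h1 h2
  exact arcs_inj h1 h2

/-- sets of involutions of size different from one -/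
lemma covS_inv [DecidableEq H] (e : H ≃ V) : ∀ (n : ℕ) (T : Finset H), T.card = n → n ≠ 1 →
    (∀ x ∈ T, ∀ g, G.Adj (e g) (e (g * x))) →
    (∀ x ∈ T, x * x = 1 ∧ x ≠ 1) → Cov G (arcsS e T) := by
  intro n
  induction n using Nat.strong_induction_on with
  | _ n ih =>
    intro T hcard hn hadj hT
    by_cases h0 : n = 0
    · subst h0
      rw [Finset.card_eq_zero] at hcard
      subst hcard
      exact cov_empty (by rintro u v ⟨x, hx, _⟩; exact absurd hx (Finset.notMem_empty x))
    by_cases h3 : n = 3
    · subst h3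
      obtain ⟨x, y, z, hxy, hxz, hyz, rfl⟩ := Finset.card_eq_three.1 hcard
      refine (part_inv3 e x y z (hadj x (by simp)) (hadj y (by simp)) (hadj z (by simp))
        hxy hxz hyz (hT x (by simp)).1 (hT y (by simp)).1 (hT z (by simp)).1).congr ?_
      intro u v
      simp [arcsS]
    · obtain ⟨P, hP, hPc⟩ := Finset.exists_subset_card_eq (s := T) (n := 2) (by omega)
      obtain ⟨x, y, hxy, rfl⟩ := Finset.card_eq_two.1 hPc
      have hx := hP (Finset.mem_insert_self x _)
      have hy := hP (Finset.mem_insert_of_mem (Finset.mem_singleton_self y))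
      have h1 : Cov G (arcsS e {x, y}) := by
        refine (part_inv2 e x y (hadj x hx) (hadj y hy) hxy (hT x hx).1 (hT y hy).1
          (hT x hx).2 (hT y hy).2).congr ?_
        intro u v
        simp [arcsS]
      have h2 : Cov G (arcsS e (T \ {x, y})) := by
        refine ih (n - 2) (by omega) _ ?_ (by omega) ?_ ?_
        · rw [Finset.card_sdiff_of_subset hP, hcard, hPc]
        · intro z hz; exact hadj z (Finset.mem_sdiff.1 hz).1
        · intro z hz; exact hT z (Finset.mem_sdiff.1 hz).1
      have h3 := covS_union e Finset.disjoint_sdiff h1 h2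
      rwa [Finset.union_sdiff_of_subset hP] at h3

/-- symmetric sets not of size one -/
theorem covS_all [DecidableEq H] (e : H ≃ V) (T : Finset H) (hcard : T.card ≠ 1)
    (hadj : ∀ x ∈ T, ∀ g, G.Adj (e g) (e (g * x)))
    (hsymm : ∀ x ∈ T, x⁻¹ ∈ T) : Cov G (arcsS e T) := by
  have h1T : ∀ x ∈ T, x ≠ 1 := by
    rintro x hx rfl
    have := hadj 1 hx 1
    rw [one_mul] at this
    exact G.irrefl this
  have hsplit : T.filter (fun x => x * x = 1) ∪ T.filter (fun x => ¬ (x * x = 1)) = T :=
    Finset.filter_union_filter_not_eq _ _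
  have hdis : Disjoint (T.filter (fun x => x * x = 1)) (T.filter (fun x => ¬ (x * x = 1))) :=
    Finset.disjoint_filter_filter_not _ _ _
  by_cases hI : (T.filter (fun x => x * x = 1)).card = 1
  · obtain ⟨t, ht⟩ := Finset.card_eq_one.1 hI
    have htT : t ∈ T.filter (fun x => x * x = 1) := by rw [ht]; exact Finset.mem_singleton_self t
    rw [Finset.mem_filter] at htT
    have hne : ∃ s ∈ T, s * s ≠ 1 := by
      by_contra hcon
      push Not at hcon
      apply hcard
      rw [← hI]
      congr 1
      rw [Finset.filter_true_of_mem hcon]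
    obtain ⟨s, hs, hs2⟩ := hne
    have hst : s ≠ t := by rintro rfl; exact hs2 htT.2
    have hsi2 : s⁻¹ * s⁻¹ ≠ 1 := by
      intro h
      apply hs2
      have := congrArg (fun z => z⁻¹) h
      simpa using this
    have h1 : Cov G (arcsS e {s, s⁻¹, t}) := by
      refine (part3 e s t (hadj s hs) (hadj _ (hsymm s hs)) (hadj t htT.1) hs2 htT.2
        (h1T t htT.1)).congr ?_
      intro u v
      simp [arcsS]
    have hsub : {s, s⁻¹, t} ⊆ T := by
      intro x hx
      simp only [Finset.mem_insert, Finset.mem_singleton] at hx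
      rcases hx with rfl | rfl | rfl
      · exact hs
      · exact hsymm s hs
      · exact htT.1
    have h2 : Cov G (arcsS e (T \ {s, s⁻¹, t})) := by
      refine covS_nonInv e _ ?_ ?_
      · intro z hz; exact hadj z (Finset.mem_sdiff.1 hz).1
      · intro z hz hz2
        rw [Finset.mem_sdiff] at hz
        apply hz.2
        have : z ∈ T.filter (fun x => x * x = 1) := Finset.mem_filter.2 ⟨hz.1, hz2⟩
        rw [ht, Finset.mem_singleton] at this
        rw [this]; simp
    have h3 := covS_union e Finset.disjoint_sdiff h1 h2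
    rwa [Finset.union_sdiff_of_subset hsub] at h3
  · rw [← hsplit]
    refine covS_union e hdis (covS_inv e _ _ rfl hI ?_ ?_) (covS_nonInv e _ ?_ ?_)
    · intro x hx; exact hadj x (Finset.mem_filter.1 hx).1
    · intro x hx; exact ⟨(Finset.mem_filter.1 hx).2, h1T x (Finset.mem_filter.1 hx).1⟩
    · intro x hx; exact hadj x (Finset.mem_filter.1 hx).1
    · intro x hx; exact (Finset.mem_filter.1 hx).2

end Pool.Agent.X270.OCay
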